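import Pool.Agent.TH612.MD.M3

set_option autoImplicit false

/-! Families of test functions with constants of polynomial growth: one variable. -/

namespace Pool.Agent.TH612.MU

open Complex Filter Topology MeasureTheory Set
open scoped ContDiff
open Pool.Agent.W182.KO hiding ee SS_summable
open Pool.Agent.TH612.CF Pool.Agent.TH612.MD

noncomputable section

variable {U : Type*} {s : U → ℝ}

/-- nonnegative functions of polynomial growth -/
structure PG (s : U → ℝ) (C : U → ℝ) : Prop where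
  nn : ∀ u, 0 ≤ C u
  gr : ∃ (A : ℝ) (B : ℕ), 0 ≤ A ∧ ∀ u, C u ≤ A * (1 + |s u|) ^ B

lemma PG.const {c : ℝ} (hc : 0 ≤ c) : PG s fun _ => c :=
  ⟨fun _ => hc, c, 0, hc, fun u => by simp⟩

lemma PG.mul {f g : U → ℝ} (hf : PG s f) (hg : PG s g) : PG s fun u => f u * g u := by
  obtain ⟨A, B, hA, h1⟩ := hf.gr
  obtain ⟨A', B', hA', h2⟩ := hg.gr
  refine ⟨fun u => mul_nonneg (hf.nn u) (hg.nn u), A * A', B + B', by positivity, fun u => ?_⟩
  have := hf.nn u
  have := hg.nn u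
  calc f u * g u ≤ (A * (1 + |s u|) ^ B) * (A' * (1 + |s u|) ^ B') := by
        have := h1 u
        have := h2 u
        gcongr
    _ = _ := by rw [pow_add]; ring

lemma PG.mono {f g : U → ℝ} (hg : PG s g) (h0 : ∀ u, 0 ≤ f u) (h : ∀ u, f u ≤ g u) : PG s f := by
  obtain ⟨A, B, hA, h1⟩ := hg.gr
  exact ⟨h0, A, B, hA, fun u => (h u).trans (h1 u)⟩

lemma one_le_s (u : U) (B : ℕ) : 1 ≤ (1 + |s u|) ^ B :=
  one_le_pow₀ (by have := abs_nonneg (s u); linarith)

lemma PG.add {f g : U → ℝ} (hf : PG s f) (hg : PG s g) : PG s fun u => f u + g u := by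
  obtain ⟨A, B, hA, h1⟩ := hf.gr
  obtain ⟨A', B', hA', h2⟩ := hg.gr
  refine ⟨fun u => add_nonneg (hf.nn u) (hg.nn u), A + A', B + B', by positivity, fun u => ?_⟩
  have e1 := one_le_s (s := s) u B
  have e2 := one_le_s (s := s) u B'
  have h3 : A * (1 + |s u|) ^ B ≤ A * (1 + |s u|) ^ (B + B') := by
    rw [pow_add]
    have : 0 ≤ A * (1 + |s u|) ^ B := by positivity
    nlinarith
  have h4 : A' * (1 + |s u|) ^ B' ≤ A' * (1 + |s u|) ^ (B + B') := by
    rw [pow_add]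
    have : 0 ≤ A' * (1 + |s u|) ^ B' := by positivity
    nlinarith
  have := h1 u
  have := h2 u
  rw [add_mul]
  linarith

lemma PG.pow {f : U → ℝ} (hf : PG s f) : ∀ n : ℕ, PG s fun u => f u ^ n
  | 0 => by simpa using PG.const (s := s) zero_le_one
  | n + 1 => by
      have := (hf.pow n).mul hf
      simpa only [pow_succ] using this

lemma PG.fprod {ι : Type*} (S : Finset ι) {f : U → ι → ℝ} (hf : ∀ i, PG s fun u => f u i) :
    PG s fun u => ∏ i ∈ S, f u i := by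
  classical
  induction S using Finset.induction_on with
  | empty => simpa using PG.const (s := s) zero_le_one
  | insert i S hi ih =>
    simp only [Finset.prod_insert hi]
    exact (hf i).mul ih

lemma PG.fsum {ι : Type*} (S : Finset ι) {f : U → ι → ℝ} (hf : ∀ i, PG s fun u => f u i) :
    PG s fun u => ∑ i ∈ S, f u i := by
  classical
  induction S using Finset.induction_on with
  | empty => simpa using PG.const (s := s) le_rfl
  | insert i S hi ih =>
    simp only [Finset.sum_insert hi]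
    exact (hf i).add ih

lemma PG.divc {f : U → ℝ} (hf : PG s f) {c : ℝ} (hc : 0 ≤ c) : PG s fun u => f u / c := by
  simp only [div_eq_mul_inv]
  exact hf.mul (PG.const (inv_nonneg.2 hc))

/-- families of test functions -/
structure UF (s : U → ℝ) (ξ1 : ℝ) (Ψ : U → ℝ → ℂ) : Prop where
  tf : ∀ u, TF ξ1 (Ψ u)
  bd : ∀ N : ℕ, ∃ C : U → ℝ, PG s C ∧ ∀ u (z : ℂ), 0 ≤ z.re →
    ‖P (Ψ u) z‖ * (1 + ‖z‖) ^ N ≤ C u * Real.exp (ξ1 * z.re)

variable {ξ1 : ℝ} {Ψ : U → ℝ → ℂ}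

lemma UF.mono (h : UF s ξ1 Ψ) {X : ℝ} (hX : ξ1 ≤ X) : UF s X Ψ := by
  refine ⟨fun u => ⟨(h.tf u).cd, (h.tf u).cs, fun ξ hξ => (h.tf u).sp ξ (by linarith)⟩, fun N => ?_⟩
  obtain ⟨C, hC, hb⟩ := h.bd N
  refine ⟨C, hC, fun u z hz => (hb u z hz).trans ?_⟩
  have := hC.nn u
  gcongr

lemma P_decU (h : UF s ξ1 Ψ) (N : ℕ) : ∃ C : U → ℝ, PG s C ∧ ∀ u (L r y : ℝ), 1 ≤ L → 0 ≤ r →
    ‖P (Ψ u) (L * (r + y * I))‖ ≤ C u * Real.exp (ξ1 * (L * r)) / (1 + |y|) ^ N := by
  obtain ⟨C, hC, hP⟩ := h.bd N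
  refine ⟨C, hC, fun u L r y hL hr => ?_⟩
  have e0 : ((L:ℂ) * (r + y * I)).re = L * r := by simp
  have e1 : ((L:ℂ) * (r + y * I)).im = L * y := by simp
  have h1 := P_bd_line (ψ := Ψ u) (hP u) (z := (L:ℂ) * (r + y * I)) (y := y)
    (by rw [e0]; exact mul_nonneg (by linarith) hr) (by
    rw [e1, abs_mul, abs_of_pos (by linarith : 0 < L)]
    exact le_mul_of_one_le_left (abs_nonneg _) hL)
  rwa [e0] at h1

lemma w1_decU (h : UF s ξ1 Ψ) (b : Bool) {x : ℝ} (hx : Ad x) (N : ℕ) : ∃ C : U → ℝ, PG s C ∧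
    ∀ p (L u y : ℝ) (n : ℕ), 1 ≤ L → 1 ≤ n →
      ‖w1 (Ψ p) b L n u (x + y * I)‖ ≤
        C p * (Real.exp (ξ1 * (L * x)) * (1 + |u|) ^ (fb b * x) * (n : ℝ) ^ (-(1 / 2 + x))) /
          (1 + |y|) ^ N := by
  obtain ⟨K, hK, hX⟩ := Xf_sharp b hx
  obtain ⟨M, hM⟩ := exists_nat_ge (fb b * x)
  obtain ⟨C, hC, hP⟩ := P_decU h (N + M)
  have hK0 : 0 ≤ K := by linarith
  refine ⟨fun p => C p * K, by (repeat' (first
      | assumption
      | exact PG.const (by positivity)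
      | (refine PG.divc ?_ (by positivity))
      | (apply PG.pow)
      | (apply PG.mul)
      | (apply PG.add)
      | (apply PG.fprod; intro _)
      | (apply PG.fsum; intro _)
      | apply_assumption)), fun p L u y n hL hn => ?_⟩
  have hx0 := hx.nonneg
  have hfx : 0 ≤ fb b * x := mul_nonneg (fb_nonneg b) hx0
  have g1 := hP p L x y hL hx0
  have g2 := hX (y + u)
  have e1 : (1 / 2 + ((x : ℂ) + y * I) + u * I) = ((1 / 2 + x : ℝ) : ℂ) + ((y + u : ℝ) : ℂ) * I := by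
    push_cast; ring
  have hy : 1 ≤ 1 + |y| := by have := abs_nonneg y; linarith
  have hy0 : 0 < 1 + |y| := by linarith
  have hu0 : 0 < 1 + |u| := by have := abs_nonneg u; linarith
  have g3 : (1 + |y + u|) ^ (fb b * x) ≤ (1 + |y|) ^ M * (1 + |u|) ^ (fb b * x) := by
    calc _ ≤ ((1 + |y|) * (1 + |u|)) ^ (fb b * x) :=
          Real.rpow_le_rpow (by positivity) (abs_peetre y u) hfx
      _ = (1 + |y|) ^ (fb b * x) * (1 + |u|) ^ (fb b * x) := Real.mul_rpow hy0.le hu0.le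
      _ ≤ _ := by
        rw [← Real.rpow_natCast (1 + |y|) M]
        have := Real.rpow_le_rpow_of_exponent_le hy hM
        gcongr
  have hCp := hC.nn p
  unfold w1
  rw [norm_mul, norm_mul, npow_norm hn, e1]
  calc _ ≤ (C p * Real.exp (ξ1 * (L * x)) / (1 + |y|) ^ (N + M)) *
        ((K * ((1 + |y|) ^ M * (1 + |u|) ^ (fb b * x))) * (n : ℝ) ^ (-(1 / 2 + x))) := by
        have := g2.trans (mul_le_mul_of_nonneg_left g3 hK0)
        gcongr
    _ = _ := by
        rw [pow_add]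
        field_simp

/-- bound for one term -/
lemma W1_bdU (h : UF s ξ1 Ψ) (b : Bool) {x : ℝ} (hx : Ad x) : ∃ C : U → ℝ, PG s C ∧
    ∀ p (L u : ℝ) (n : ℕ), 1 ≤ L → 1 ≤ n →
      ‖W1 (Ψ p) b x L n u‖ ≤
        C p * (Real.exp (ξ1 * (L * x)) * (1 + |u|) ^ (fb b * x) * (n : ℝ) ^ (-(1 / 2 + x))) := by
  obtain ⟨C, hC, hb⟩ := w1_decU h b hx (0 + 2)
  have hJ := J2_nonneg
  refine ⟨fun p => C p * J2, by (repeat' (first
      | assumption
      | exact PG.const (by positivity)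
      | (refine PG.divc ?_ (by positivity))
      | (apply PG.pow)
      | (apply PG.mul)
      | (apply PG.add)
      | (apply PG.fprod; intro _)
      | (apply PG.fsum; intro _)
      | apply_assumption)), fun p L u n hL hn => ?_⟩
  have := hC.nn p
  refine (norm_integral_decay (n := 0) (by positivity) fun y => hb p L u y n hL hn).trans (le_of_eq ?_)
  ring

lemma N2_bdU (h : UF s ξ1 Ψ) (b : Bool) {c2 : ℝ} (hc2 : 0 ≤ c2) :
    ∃ (C : U → ℝ) (e : ℝ), PG s C ∧ 0 ≤ e ∧ ∀ p (T u : ℝ), Real.exp 1 ≤ T → |u| ≤ c2 * T →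
      ‖N2 (Ψ p) b (1 / 8) (Real.log T) u‖ ≤ C p * T ^ e := by
  obtain ⟨C, hC, hb⟩ := W1_bdU h b (x := 1 / 2 + 4 * (1 / 8)) (Or.inr (by norm_num))
  set x : ℝ := 1 / 2 + 4 * (1 / 8) with hx
  have hx0 : x = 1 := by rw [hx]; norm_num
  have hf := fb_nonneg b
  have hs : Summable fun n : ℕ => (n : ℝ) ^ (-(1 / 2 + x)) :=
    Real.summable_nat_rpow.2 (by rw [hx0]; norm_num)
  have hS0 : 0 ≤ ∑' n : ℕ, (n : ℝ) ^ (-(1 / 2 + x)) := tsum_nonneg fun n => by positivity
  refine ⟨fun p => C p * (1 + c2) ^ (fb b * x) * ∑' n : ℕ, (n : ℝ) ^ (-(1 / 2 + x)),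
    |ξ1| * x + fb b * x, by (repeat' (first
      | assumption
      | exact PG.const (by positivity)
      | (refine PG.divc ?_ (by positivity))
      | (apply PG.pow)
      | (apply PG.mul)
      | (apply PG.add)
      | (apply PG.fprod; intro _)
      | (apply PG.fsum; intro _)
      | apply_assumption)), by positivity, fun p T u hT hu => ?_⟩
  have hCp := hC.nn p
  have hT1 : 1 ≤ T := by have := Real.add_one_le_exp 1; linarith
  have hT0 : 0 < T := by linarith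
  have hL : 1 ≤ Real.log T := by rwa [Real.le_log_iff_exp_le hT0]
  have e1 : Real.exp (ξ1 * (Real.log T * x)) ≤ T ^ (|ξ1| * x) := by
    rw [Real.rpow_def_of_pos hT0]
    apply Real.exp_le_exp.2
    have := le_abs_self ξ1
    have h0 : 0 ≤ Real.log T * x := by positivity
    nlinarith
  have e2 : (1 + |u|) ^ (fb b * x) ≤ (1 + c2) ^ (fb b * x) * T ^ (fb b * x) := by
    rw [← Real.mul_rpow (by linarith) hT0.le]
    refine Real.rpow_le_rpow (by positivity) ?_ (by positivity)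
    nlinarith
  have hT2 : T ^ (|ξ1| * x + fb b * x) = T ^ (|ξ1| * x) * T ^ (fb b * x) := Real.rpow_add hT0 _ _
  have key := N2_hasSum (h.tf p) b (κ := 1 / 8) (by norm_num) hL u
  rw [← key.tsum_eq]
  have hbd : ∀ n : ℕ, ‖W1 (Ψ p) b x (Real.log T) n u‖ ≤
      (C p * (1 + c2) ^ (fb b * x) * T ^ (|ξ1| * x + fb b * x)) * (n : ℝ) ^ (-(1 / 2 + x)) := by
    intro n
    rcases Nat.eq_zero_or_pos n with hn | hn
    · subst hn
      rw [W1_zero _ _ _ (by positivity), norm_zero]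
      positivity
    · refine (hb p (Real.log T) u n hL hn).trans ?_
      rw [hT2]
      calc _ ≤ C p * (T ^ (|ξ1| * x) * ((1 + c2) ^ (fb b * x) * T ^ (fb b * x)) *
          (n : ℝ) ^ (-(1 / 2 + x))) := by gcongr
        _ = _ := by ring
  refine (tsum_of_norm_bounded (hs.mul_left _).hasSum hbd).trans (le_of_eq ?_)
  rw [tsum_mul_left]
  ring

end

end Pool.Agent.TH612.MU
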