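import Pool.Agent.TH612.MU.U9

set_option autoImplicit false

/-! General test functions: Fubini and the bound. -/

namespace Pool.Agent.TH612.MU

open Complex Filter Topology MeasureTheory Set
open scoped ContDiff ComplexConjugate
open Pool.Agent.W182.KO hiding ee SS_summable
open Pool.Agent.TH612.CF Pool.Agent.TH612.MD

noncomputable section

variable {k : ℕ} {c1 c2 : ℝ} {w : ℝ → ℂ} {χ : Fin k ⊕ Fin k → ℝ → ℂ}

lemma fam_bd (hχ : ∀ i, ContDiff ℝ ∞ (χ i)) (hχc : ∀ i, HasCompactSupport (χ i)) (N : ℕ) :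
    ∃ C : (Fin k ⊕ Fin k → ℝ) → ℝ, PG sz C ∧ ∀ (a : Fin k ⊕ Fin k → ℝ) (L : ℝ) (y : Fin k ⊕ Fin k → ℝ),
      1 ≤ L → ‖∏ i, P (md χ a i) (L * y i * I)‖ ≤ C a * (JI y * (YY y ^ N)⁻¹) := by
  have hT := fun i => exists_TF (hχ i) (hχc i)
  choose X hX0 hX using hT
  have hU : ∀ i, UF (sz : (Fin k ⊕ Fin k → ℝ) → ℝ) (X i) (fun u x => χ i x * exp (I * u i * x)) := fun i =>
    modUF (hX i) (a := fun u => u i) fun u => le_sz u i
  have hP := fun i => P_decU (hU i) (2 + N)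
  choose C hC hb using hP
  refine ⟨fun a => ∏ i, C i a, by (repeat' (first
      | assumption
      | exact PG.const (by positivity)
      | (refine PG.divc ?_ (by positivity))
      | (apply PG.pow)
      | (apply PG.mul)
      | (apply PG.add)
      | (apply PG.fprod; intro _)
      | (apply PG.fsum; intro _)
      | apply_assumption)), fun a L y hL => ?_⟩
  rw [norm_prod]
  have h1 : ∀ i, ‖P (md χ a i) (L * y i * I)‖ ≤ C i a * (((1 + |y i|) ^ 2)⁻¹ * ((1 + |y i|) ^ N)⁻¹) := by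
    intro i
    have h2 := hb i a L 0 (y i) hL le_rfl
    rw [mul_zero, mul_zero, Real.exp_zero, mul_one, ofReal_zero, zero_add, ← mul_assoc] at h2
    refine h2.trans (le_of_eq ?_)
    rw [div_eq_mul_inv, pow_add, mul_inv]
  refine (Finset.prod_le_prod (fun _ _ => norm_nonneg _) fun i _ => h1 i).trans (le_of_eq ?_)
  unfold JI YY
  rw [Finset.prod_mul_distrib, Finset.prod_mul_distrib, ← Finset.prod_pow, ← Finset.prod_inv_distrib]

/-- joint integrability in the shifts and the frequency -/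
theorem WF_pint (hw : WT c1 c2 w) (hc1 : 0 < c1) (hc12 : c1 ≤ c2) (hχ : ∀ i, ContDiff ℝ ∞ (χ i))
    (hχc : ∀ i, HasCompactSupport (χ i)) {F : (Fin k ⊕ Fin k → ℝ) → ℂ} (hF : Continuous F) (hRD : RD F)
    (g : Fin k ⊕ Fin k → ℝ) {T : ℝ} (hT : Real.exp 1 ≤ T) :
    Integrable (Function.uncurry fun (y η : Fin k ⊕ Fin k → ℝ) =>
      F η * WW w (md χ (am g (Real.log T) η)) T y) (volume.prod volume) := by
  have hT1 : 1 ≤ T := by have := Real.add_one_le_exp 1; linarith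
  have hT0 : 0 < T := by linarith
  have hL : 1 ≤ Real.log T := by rwa [Real.le_log_iff_exp_le hT0]
  obtain ⟨CD, N, hCD, hDT⟩ := DT_bd (k := k) hw hc1 hc12 hT0
  obtain ⟨C, hC, hb⟩ := fam_bd hχ hχc N
  obtain ⟨A, B, hA, hg⟩ := hC.gr
  obtain ⟨CF, hCF, hFb⟩ := hRD.toJI B
  set cg : ℝ := 1 + 2 * Real.pi + sz g with hcg
  have hcg0 : 0 ≤ cg := by have := sz_nonneg g; positivity
  have hint : Integrable (fun p : (Fin k ⊕ Fin k → ℝ) × (Fin k ⊕ Fin k → ℝ) =>
      (CD * A * (cg * Real.log T) ^ B * CF) * (JI p.1 * JI p.2)) (volume.prod volume) :=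
    (JI_int.mul_prod JI_int).const_mul _
  refine hint.mono' ?_ ?_
  · unfold Function.uncurry
    simp only [WW_DT]
    have h1 : AEStronglyMeasurable (fun p : (Fin k ⊕ Fin k → ℝ) × (Fin k ⊕ Fin k → ℝ) => DT w T p.1)
        (volume.prod volume) := (DT_meas hw hc1 hT0).comp_quasiMeasurePreserving
          Measure.quasiMeasurePreserving_fst
    have h2 : Continuous fun p : (Fin k ⊕ Fin k → ℝ) × (Fin k ⊕ Fin k → ℝ) => F p.2 :=
      hF.comp continuous_snd
    have h3 : Continuous fun p : (Fin k ⊕ Fin k → ℝ) × (Fin k ⊕ Fin k → ℝ) =>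
        ∏ i, P (md χ (am g (Real.log T) p.2) i) (Real.log T * p.1 i * I) := by
      refine continuous_finsetProd _ fun i _ => ?_
      simp only [md_P]
      obtain ⟨X, hX0, hX⟩ := exists_TF (hχ i) (hχc i)
      have h5 : Continuous fun p : (Fin k ⊕ Fin k → ℝ) × (Fin k ⊕ Fin k → ℝ) => p.1 i :=
        (continuous_apply i).comp continuous_fst
      have h6 : Continuous fun p : (Fin k ⊕ Fin k → ℝ) × (Fin k ⊕ Fin k → ℝ) => p.2 i :=
        (continuous_apply i).comp continuous_snd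
      refine (P_diff hX).continuous.comp ?_
      fun_prop
    exact h2.aestronglyMeasurable.mul (h3.aestronglyMeasurable.mul h1)
  · have hae : ∀ᵐ p : (Fin k ⊕ Fin k → ℝ) × (Fin k ⊕ Fin k → ℝ) ∂(volume.prod volume),
        ‖DT w T p.1‖ ≤ CD * YY p.1 ^ N := Measure.quasiMeasurePreserving_fst.ae hDT
    filter_upwards [hae] with p hp
    unfold Function.uncurry
    simp only [WW_DT]
    rw [norm_mul, norm_mul]
    have g1 := hb (am g (Real.log T) p.2) (Real.log T) p.1 hL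
    have g2 := hg (am g (Real.log T) p.2)
    have g3 := sz_am g hL p.2
    have g4 := hFb p.2
    have hJ1 := (JI_pos p.1).le
    have hJ2 := (JI_pos p.2).le
    have hY : 0 < YY p.1 := by have := YY_one p.1; linarith
    have hs := sz_nonneg p.2
    have g5 : C (am g (Real.log T) p.2) ≤ A * ((cg * Real.log T) * (1 + sz p.2)) ^ B := by
      refine g2.trans ?_
      have : 0 ≤ 1 + |sz (am g (Real.log T) p.2)| := by positivity
      gcongr
    have hC0 := hC.nn (am g (Real.log T) p.2)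
    calc ‖F p.2‖ * (‖∏ i, P (md χ (am g (Real.log T) p.2) i) (Real.log T * p.1 i * I)‖ * ‖DT w T p.1‖) ≤
        ‖F p.2‖ * ((C (am g (Real.log T) p.2) * (JI p.1 * (YY p.1 ^ N)⁻¹)) * (CD * YY p.1 ^ N)) := by gcongr
      _ = ‖F p.2‖ * C (am g (Real.log T) p.2) * CD * JI p.1 := by field_simp
      _ ≤ ‖F p.2‖ * (A * ((cg * Real.log T) * (1 + sz p.2)) ^ B) * CD * JI p.1 := by gcongr
      _ = CD * A * (cg * Real.log T) ^ B * (‖F p.2‖ * (1 + sz p.2) ^ B) * JI p.1 := by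
          rw [mul_pow]; ring
      _ ≤ CD * A * (cg * Real.log T) ^ B * (CF * JI p.2) * JI p.1 := by gcongr
      _ = _ := by ring

/-- integrability and bound for a general test function with cutoffs -/
theorem WF_bd (hw : WT c1 c2 w) (hc1 : 0 < c1) (hc12 : c1 ≤ c2) {Φ : (Fin k ⊕ Fin k → ℝ) → ℂ}
    (hχ : ∀ i, ContDiff ℝ ∞ (χ i)) (hχc : ∀ i, HasCompactSupport (χ i))
    (hΦ1 : ContDiff ℝ ∞ Φ) (hΦ2 : HasCompactSupport Φ) (hΦ : ∀ ξ, Φ ξ = Φ ξ * ∏ i, χ i (ξ i)) :
    (∀ (g : Fin k ⊕ Fin k → ℝ) (T : ℝ), Real.exp 1 ≤ T → Integrable (WF w Φ g T)) ∧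
    ∀ (C : (Fin k ⊕ Fin k → ℝ) → ℝ) (T1 E : ℝ), PG sz C → Real.exp 1 ≤ T1 →
      (∀ (q : Fin k ⊕ Fin k → ℝ) (T : ℝ), T1 ≤ T → ‖∫ y, WW w (md χ q) T y‖ ≤ C q * T ^ E) →
      ∃ (C' : ℝ) (B : ℕ), 0 ≤ C' ∧ ∀ (g : Fin k ⊕ Fin k → ℝ) (T : ℝ), T1 ≤ T →
        ‖∫ y, WF w Φ g T y‖ ≤ C' * (1 + sz g) ^ B * (Real.log T ^ B * T ^ E) := by
  obtain ⟨F, hF, hRD, hinv⟩ := inv_F hΦ1 hΦ2
  have hRD' : RD F := hRD
  have hWF : ∀ (g : Fin k ⊕ Fin k → ℝ) (T : ℝ), WF w Φ g T = fun y =>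
      ∫ η, F η * WW w (md χ (am g (Real.log T) η)) T y := fun g T =>
    funext fun y => WF_eq (fun i => (hχ i).continuous) hχc hΦ hF hRD' hinv g T y
  refine ⟨fun g T hT => ?_, fun C T1 E hC hT1 hb => ?_⟩
  · rw [hWF]
    exact (WF_pint hw hc1 hc12 hχ hχc hF hRD' g hT).integral_prod_left
  · obtain ⟨A, B, hA, hg⟩ := hC.gr
    obtain ⟨CF, hCF, hFb⟩ := hRD'.toJI B
    have hJ2 := J2_nonneg
    have hpi := Real.pi_pos
    refine ⟨A * (1 + 2 * Real.pi) ^ B * CF * J2 ^ Fintype.card (Fin k ⊕ Fin k), B, by positivity,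
      fun g T hT => ?_⟩
    set cg : ℝ := 1 + 2 * Real.pi + sz g with hcg
    have hsg := sz_nonneg g
    have hcg0 : 0 ≤ cg := by positivity
    have hcg1 : cg ≤ (1 + 2 * Real.pi) * (1 + sz g) := by rw [hcg]; nlinarith
    have hTe := hT1.trans hT
    have hT1 : 1 ≤ T := by have := Real.add_one_le_exp 1; linarith
    have hT0 : 0 < T := by linarith
    have hL : 1 ≤ Real.log T := by rwa [Real.le_log_iff_exp_le hT0]
    rw [hWF, integral_integral_swap (WF_pint hw hc1 hc12 hχ hχc hF hRD' g hTe)]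
    simp only [integral_const_mul]
    have hpt : ∀ η : Fin k ⊕ Fin k → ℝ, ‖F η * ∫ y, WW w (md χ (am g (Real.log T) η)) T y‖ ≤
        (A * (cg * Real.log T) ^ B * CF * T ^ E) * JI η := by
      intro η
      have g1 := hb (am g (Real.log T) η) T hT
      have g2 := hg (am g (Real.log T) η)
      have g3 := sz_am g hL η
      have g4 := hFb η
      have hs := sz_nonneg η
      have g5 : C (am g (Real.log T) η) ≤ A * ((cg * Real.log T) * (1 + sz η)) ^ B := by
        refine g2.trans ?_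
        have : 0 ≤ 1 + |sz (am g (Real.log T) η)| := by positivity
        gcongr
      have hTE : 0 ≤ T ^ E := by positivity
      rw [norm_mul]
      calc _ ≤ ‖F η‖ * (A * ((cg * Real.log T) * (1 + sz η)) ^ B * T ^ E) := by
            have := g1.trans (by gcongr : C (am g (Real.log T) η) * T ^ E ≤
              A * ((cg * Real.log T) * (1 + sz η)) ^ B * T ^ E)
            gcongr
        _ = A * (cg * Real.log T) ^ B * T ^ E * (‖F η‖ * (1 + sz η) ^ B) := by rw [mul_pow]; ring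
        _ ≤ A * (cg * Real.log T) ^ B * T ^ E * (CF * JI η) := by gcongr
        _ = _ := by ring
    refine (decayI (Eventually.of_forall hpt)).trans ?_
    have hTE : 0 ≤ T ^ E := by positivity
    rw [mul_pow]
    calc A * (cg ^ B * Real.log T ^ B) * CF * T ^ E * J2 ^ Fintype.card (Fin k ⊕ Fin k) ≤
        A * (((1 + 2 * Real.pi) * (1 + sz g)) ^ B * Real.log T ^ B) * CF * T ^ E *
          J2 ^ Fintype.card (Fin k ⊕ Fin k) := by gcongr
      _ = _ := by rw [mul_pow]; ring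

end

end Pool.Agent.TH612.MU
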