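import Pool.Agent.TH612.MU.U10

set_option autoImplicit false

/-! Test functions with support in a small cube. -/

namespace Pool.Agent.TH612.MU

open Complex Filter Topology MeasureTheory Set
open scoped ContDiff ComplexConjugate
open Pool.Agent.W182.KO hiding ee SS_summable
open Pool.Agent.TH612.CF Pool.Agent.TH612.MD

noncomputable section

variable {k : ℕ}

/-- `0` on the first block and `1` on the second block -/
def rr (i : Fin k ⊕ Fin k) : ℝ := if i.isRight then 1 else 0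

/-- the lengths attached to a frequency vector -/
def pp (A : Finset (Fin k ⊕ Fin k)) (x : Fin k ⊕ Fin k → ℝ) (i : Fin k ⊕ Fin k) : ℝ :=
  if i ∈ A then max (x i + rr i) 0 else max (1 - (x i + rr i)) 0

lemma pp_nonneg (A : Finset (Fin k ⊕ Fin k)) (x : Fin k ⊕ Fin k → ℝ) (i : Fin k ⊕ Fin k) : 0 ≤ pp A x i := by
  unfold pp; split_ifs <;> exact le_max_right _ _

lemma card_side {A : Finset (Fin k ⊕ Fin k)} (hA : A.card = k) (b : Bool) :
    (Finset.univ.filter fun i : Fin k ⊕ Fin k => decide (i ∈ A) = b).card = k := by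
  cases b
  · have : (Finset.univ.filter fun i : Fin k ⊕ Fin k => decide (i ∈ A) = false) = Aᶜ := by
      ext i; simp
    rw [this, Finset.card_compl, hA]
    simp
  · have : (Finset.univ.filter fun i : Fin k ⊕ Fin k => decide (i ∈ A) = true) = A := by
      ext i; simp
    rw [this, hA]

lemma sd_add {A : Finset (Fin k ⊕ Fin k)} (hA : A.card = k) (b : Bool) (ℓ : Fin k ⊕ Fin k → ℝ) (c : ℝ) :
    sd A b (fun i => ℓ i + c) = sd A b ℓ + k * c := by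
  unfold sd
  rw [← Finset.sum_filter, ← Finset.sum_filter, Finset.sum_add_distrib, Finset.sum_const, card_side hA,
    nsmul_eq_mul]

/-- cutoffs around a point -/
def bp (x0 : Fin k ⊕ Fin k → ℝ) {δ : ℝ} (hδ : 0 < δ) (i : Fin k ⊕ Fin k) : ContDiffBump (x0 i) :=
  ⟨δ, 2 * δ, hδ, by linarith⟩

/-- complex cutoffs around a point -/
def bpc (x0 : Fin k ⊕ Fin k → ℝ) {δ : ℝ} (hδ : 0 < δ) (i : Fin k ⊕ Fin k) (x : ℝ) : ℂ :=
  ((bp x0 hδ i x : ℝ) : ℂ)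

lemma bpc_cd (x0 : Fin k ⊕ Fin k → ℝ) {δ : ℝ} (hδ : 0 < δ) (i : Fin k ⊕ Fin k) :
    ContDiff ℝ ∞ (bpc x0 hδ i) := by
  unfold bpc
  exact Complex.ofRealCLM.contDiff.comp (bp x0 hδ i).contDiff

lemma bpc_cs (x0 : Fin k ⊕ Fin k → ℝ) {δ : ℝ} (hδ : 0 < δ) (i : Fin k ⊕ Fin k) :
    HasCompactSupport (bpc x0 hδ i) := by
  unfold bpc
  exact (bp x0 hδ i).hasCompactSupport.comp_left (g := fun x : ℝ => (x : ℂ)) Complex.ofReal_zero

lemma bpc_one (x0 : Fin k ⊕ Fin k → ℝ) {δ : ℝ} (hδ : 0 < δ) (i : Fin k ⊕ Fin k) {x : ℝ}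
    (hx : |x - x0 i| < δ) : bpc x0 hδ i x = 1 := by
  unfold bpc
  rw [(bp x0 hδ i).one_of_mem_closedBall (by
    rw [Metric.mem_closedBall, Real.dist_eq]; exact hx.le)]
  norm_num

lemma bpc_zero (x0 : Fin k ⊕ Fin k → ℝ) {δ : ℝ} (hδ : 0 < δ) (i : Fin k ⊕ Fin k) {x : ℝ}
    (hx : 2 * δ ≤ |x - x0 i|) : bpc x0 hδ i x = 0 := by
  unfold bpc
  rw [(bp x0 hδ i).zero_of_le_dist (by rw [Real.dist_eq]; exact hx)]
  norm_num

lemma bpc_TF (A : Finset (Fin k ⊕ Fin k)) (x0 : Fin k ⊕ Fin k → ℝ) {δ : ℝ} (hδ : 0 < δ)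
    (i : Fin k ⊕ Fin k) : TF (pp A x0 i + 2 * δ - fb (fA A i)) (fun x => bpc x0 hδ i (sgA A i * x)) := by
  have hne : sgA A i ≠ 0 := by
    rcases sgA_pm A i with h | h <;> rw [h] <;> norm_num
  have hcd : ContDiff ℝ ∞ fun x : ℝ => sgA A i * x := contDiff_const.mul contDiff_id
  have hcs := (bpc_cs x0 hδ i).comp_smul (c := sgA A i) hne
  simp only [smul_eq_mul] at hcs
  refine ⟨(bpc_cd x0 hδ i).comp hcd, hcs, fun x hx => ?_⟩
  apply bpc_zero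
  unfold sgA
  unfold pp fA at hx
  by_cases hi : i ∈ A
  · rw [if_pos hi] at hx ⊢
    rw [if_pos hi] at hx
    have h1 := le_max_left (x0 i + rr i) 0
    generalize max (x0 i + rr i) 0 = M at hx h1
    refine le_trans ?_ (le_abs_self _)
    unfold rr at h1
    unfold fb at hx
    rcases i with j | j <;> simp at hx h1 ⊢ <;> linarith
  · rw [if_neg hi] at hx ⊢
    rw [if_neg hi] at hx
    have h1 := le_max_left (1 - (x0 i + rr i)) 0
    generalize max (1 - (x0 i + rr i)) 0 = M at hx h1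
    refine le_trans ?_ (neg_le_abs _)
    unfold rr at h1
    unfold fb at hx
    rcases i with j | j <;> simp at hx h1 ⊢ <;> linarith

lemma bpc_UF (A : Finset (Fin k ⊕ Fin k)) (x0 : Fin k ⊕ Fin k → ℝ) {δ : ℝ} (hδ : 0 < δ)
    (i : Fin k ⊕ Fin k) : UF (sz : (Fin k ⊕ Fin k → ℝ) → ℝ) (pp A x0 i + 2 * δ - fb (fA A i))
      (fun p x => md (bpc x0 hδ) p i (sgA A i * x)) := by
  have h := modUF (bpc_TF A x0 hδ i) (s := (sz : (Fin k ⊕ Fin k → ℝ) → ℝ))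
    (a := fun u => sgA A i * u i) (fun u => by
      rw [abs_mul]
      have := le_sz u i
      rcases sgA_pm A i with h | h <;> rw [h] <;> simpa using this)
  have e : (fun (p : Fin k ⊕ Fin k → ℝ) (x : ℝ) => md (bpc x0 hδ) p i (sgA A i * x)) =
      fun u x => bpc x0 hδ i (sgA A i * x) * exp (I * ((sgA A i * u i : ℝ) : ℂ) * x) := by
    funext p x
    unfold md
    congr 2
    push_cast; ring
  rw [e]
  exact h

/-- logarithms are absorbed -/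
lemma log_absorb {E E' : ℝ} (B : ℕ) (hE : E' < E) :
    ∃ T0 : ℝ, ∀ T : ℝ, T0 ≤ T → Real.log T ^ B * T ^ E' ≤ T ^ E := by
  have h1 : (fun T : ℝ => Real.log T ^ B) =o[atTop] fun T : ℝ => T ^ (E - E') := by
    have := isLittleO_log_rpow_rpow_atTop (r := (B : ℝ)) (s := E - E') (by linarith)
    simpa only [Real.rpow_natCast] using this
  have h2 := (h1.bound one_pos).and (eventually_gt_atTop 0)
  obtain ⟨T0, hT0⟩ := eventually_atTop.1 h2
  refine ⟨T0, fun T hT => ?_⟩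
  obtain ⟨h3, h4⟩ := hT0 T hT
  rw [one_mul, Real.norm_of_nonneg (Real.rpow_nonneg h4.le _)] at h3
  have h5 := (le_abs_self _).trans h3
  calc Real.log T ^ B * T ^ E' ≤ T ^ (E - E') * T ^ E' := by gcongr
    _ = T ^ E := by rw [← Real.rpow_add h4]; congr 1; ring

/-- test functions in a small cube -/
theorem cube {A : Finset (Fin k ⊕ Fin k)} (hA : A.card = k) (b : Bool) {x0 : Fin k ⊕ Fin k → ℝ} {a : ℝ}
    (ha : a < 1) (hx : sd A b (pp A x0) ≤ a) {E : ℝ} (hE : 1 - (1 - a) / 4 < E) :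
    ∃ δ : ℝ, 0 < δ ∧ ∀ (w : ℝ → ℂ) (c1 c2 : ℝ) (Φ : (Fin k ⊕ Fin k → ℝ) → ℂ),
      WT c1 c2 w → 0 < c1 → c1 ≤ c2 → ContDiff ℝ ∞ Φ → HasCompactSupport Φ →
      (∀ ξ, Φ ξ ≠ 0 → ∀ i, |ξ i - x0 i| < δ) →
      (∀ (g : Fin k ⊕ Fin k → ℝ) (T : ℝ), Real.exp 1 ≤ T → Integrable (WF w Φ g T)) ∧
      ∃ (C : ℝ) (B : ℕ) (T0 : ℝ), 0 ≤ C ∧ ∀ (g : Fin k ⊕ Fin k → ℝ) (T : ℝ), T0 ≤ T →
        ‖∫ y, WF w Φ g T y‖ ≤ C * (1 + sz g) ^ B * T ^ E := by
  obtain ⟨m, hm0, hm1, hm2⟩ : ∃ m : ℝ, 0 < m ∧ m ≤ (1 - a) / 2 ∧ m ≤ E - (1 - (1 - a) / 4) :=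
    ⟨min ((1 - a) / 2) (E - (1 - (1 - a) / 4)), lt_min (by linarith) (by linarith),
      min_le_left _ _, min_le_right _ _⟩
  have hk0 : (0:ℝ) ≤ k := Nat.cast_nonneg k
  obtain ⟨δ, hδ, hδ2⟩ : ∃ δ : ℝ, 0 < δ ∧ (k:ℝ) * (2 * δ) ≤ m := by
    refine ⟨m / (2 * (k + 1)), by positivity, ?_⟩
    have e : (k:ℝ) * (2 * (m / (2 * (k + 1)))) = m * (k / (k + 1)) := by field_simp
    rw [e]
    have : (k:ℝ) / (k + 1) ≤ 1 := by
      rw [div_le_one (by positivity)]; linarith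
    nlinarith
  refine ⟨δ, hδ, fun w c1 c2 Φ hw hc1 hc12 hΦ1 hΦ2 hsupp => ?_⟩
  have hsd : sd A b (fun i => pp A x0 i + 2 * δ) ≤ a + m := by
    rw [sd_add hA]; linarith
  have hχe : ∀ ξ, Φ ξ = Φ ξ * ∏ i, bpc x0 hδ i (ξ i) := by
    intro ξ
    by_cases h0 : Φ ξ = 0
    · rw [h0, zero_mul]
    · rw [Finset.prod_eq_one fun i _ => bpc_one x0 hδ i (hsupp ξ h0 i), mul_one]
  obtain ⟨C, T1, hC, hT1, hb⟩ := main_thmU hA b (ℓ := fun i => pp A x0 i + 2 * δ)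
    (fun i => by have := pp_nonneg A x0 i; linarith) (by linarith) (ψ := md (bpc x0 hδ))
    (fun i => bpc_UF A x0 hδ i) hw hc1 hc12 (m / 8) (by positivity)
  obtain ⟨hint, hbd⟩ := WF_bd hw hc1 hc12 (fun i => bpc_cd x0 hδ i) (fun i => bpc_cs x0 hδ i) hΦ1 hΦ2 hχe
  refine ⟨hint, ?_⟩
  obtain ⟨C', B, hC', hb'⟩ := hbd C T1 _ hC hT1 hb
  obtain ⟨T2, hT2⟩ := log_absorb (E := E)
    (E' := 1 - (1 - sd A b (fun i => pp A x0 i + 2 * δ)) / 4 + m / 8) B (by linarith)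
  refine ⟨C', B, max T1 T2, hC', fun g T hT => ?_⟩
  have h1 := hb' g T ((le_max_left _ _).trans hT)
  have h2 := hT2 T ((le_max_right _ _).trans hT)
  have h3 := sz_nonneg g
  refine h1.trans ?_
  gcongr

end

end Pool.Agent.TH612.MU
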