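import Pool.Agent.TH612.MU.U11
import Mathlib.Geometry.Manifold.PartitionOfUnity

set_option autoImplicit false

/-! General test functions: partition of unity. -/

namespace Pool.Agent.TH612.MU

open Complex Filter Topology MeasureTheory Set Asymptotics
open scoped ContDiff ComplexConjugate Manifold
open Pool.Agent.W182.KO hiding ee SS_summable
open Pool.Agent.TH612.CF Pool.Agent.TH612.MD

noncomputable section

variable {k : ℕ} {c1 c2 : ℝ} {w : ℝ → ℂ}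

lemma hatN_int {ι : Type*} [Fintype ι] {Φ : (ι → ℝ) → ℂ} (h1 : Continuous Φ) (h2 : HasCompactSupport Φ)
    (x : ι → ℝ) : Integrable (fun ξ : ι → ℝ => Φ ξ * exp (I * (∑ i, ξ i * x i : ℝ))) := by
  have h3 : Continuous fun ξ : ι → ℝ => exp (I * (∑ i, ξ i * x i : ℝ)) := by fun_prop
  exact (h1.mul h3).integrable_of_hasCompactSupport h2.mul_right

lemma hatN_sum {ι : Type*} [Fintype ι] {J : Type*} [Fintype J] {Φ : (ι → ℝ) → ℂ} {Ψ : J → (ι → ℝ) → ℂ}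
    (h : ∀ ξ, Φ ξ = ∑ j, Ψ j ξ) (h1 : ∀ j, Continuous (Ψ j)) (h2 : ∀ j, HasCompactSupport (Ψ j)) (x : ι → ℝ) :
    hatN Φ x = ∑ j, hatN (Ψ j) x := by
  unfold hatN
  rw [← integral_finsetSum _ fun j _ => hatN_int (h1 j) (h2 j) x]
  congr 1; funext ξ
  rw [h ξ, Finset.sum_mul]

theorem final_aux {a : ℝ} (ha : a < 1) {Φ : (Fin k ⊕ Fin k → ℝ) → ℂ} (hΦ1 : ContDiff ℝ ∞ Φ)
    (hΦ2 : HasCompactSupport Φ)
    (hs : ∀ x ∈ tsupport Φ, ∃ (A : Finset (Fin k ⊕ Fin k)) (b : Bool), A.card = k ∧ sd A b (pp A x) ≤ a)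
    (hw : WT c1 c2 w) (hc1 : 0 < c1) (hc12 : c1 ≤ c2) {E : ℝ} (hE : 1 - (1 - a) / 4 < E) :
    (∀ (g : Fin k ⊕ Fin k → ℝ) (T : ℝ), Real.exp 1 ≤ T → Integrable (WF w Φ g T)) ∧
      ∃ (C : ℝ) (B : ℕ) (T0 : ℝ), 0 ≤ C ∧ ∀ (g : Fin k ⊕ Fin k → ℝ) (T : ℝ), T0 ≤ T →
        ‖∫ y, WF w Φ g T y‖ ≤ C * (1 + sz g) ^ B * T ^ E := by
  classical
  have hcube : ∀ x : tsupport Φ, ∃ δ : ℝ, 0 < δ ∧ ∀ (w : ℝ → ℂ) (c1 c2 : ℝ)
      (Φ : (Fin k ⊕ Fin k → ℝ) → ℂ),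
      WT c1 c2 w → 0 < c1 → c1 ≤ c2 → ContDiff ℝ ∞ Φ → HasCompactSupport Φ →
      (∀ ξ, Φ ξ ≠ 0 → ∀ i, |ξ i - x.1 i| < δ) →
      (∀ (g : Fin k ⊕ Fin k → ℝ) (T : ℝ), Real.exp 1 ≤ T → Integrable (WF w Φ g T)) ∧
      ∃ (C : ℝ) (B : ℕ) (T0 : ℝ), 0 ≤ C ∧ ∀ (g : Fin k ⊕ Fin k → ℝ) (T : ℝ), T0 ≤ T →
        ‖∫ y, WF w Φ g T y‖ ≤ C * (1 + sz g) ^ B * T ^ E := by
    intro x
    obtain ⟨A, b, hA, hx⟩ := hs x.1 x.2
    exact cube hA b ha hx hE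
  choose δ hδ hprop using hcube
  have hK : IsCompact (tsupport Φ) := hΦ2
  obtain ⟨t, ht⟩ := hK.elim_finite_subcover (fun x : tsupport Φ => Metric.ball x.1 (δ x))
    (fun x => Metric.isOpen_ball) (fun x hx => mem_iUnion.2 ⟨⟨x, hx⟩, Metric.mem_ball_self (hδ _)⟩)
  obtain ⟨f, hf⟩ := SmoothPartitionOfUnity.exists_isSubordinate 𝓘(ℝ, Fin k ⊕ Fin k → ℝ)
    (isClosed_tsupport Φ) (fun x : t => Metric.ball x.1.1 (δ x.1)) (fun x => Metric.isOpen_ball) (by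
      intro x hx
      have h1 := ht hx
      rw [mem_iUnion₂] at h1
      obtain ⟨i, hi, h2⟩ := h1
      exact mem_iUnion.2 ⟨⟨i, hi⟩, h2⟩)
  set Ψ : t → (Fin k ⊕ Fin k → ℝ) → ℂ := fun j ξ => (f j ξ : ℂ) * Φ ξ with hΨ
  have hsum : ∀ ξ, Φ ξ = ∑ j, Ψ j ξ := by
    intro ξ
    rw [hΨ]
    simp only
    rw [← Finset.sum_mul]
    by_cases hξ : ξ ∈ tsupport Φ
    · have h1 := f.sum_eq_one hξ
      rw [finsum_eq_sum_of_fintype] at h1
      rw [← Complex.ofReal_sum, h1, Complex.ofReal_one, one_mul]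
    · rw [image_eq_zero_of_notMem_tsupport hξ, mul_zero]
  have hcd : ∀ j, ContDiff ℝ ∞ (Ψ j) := by
    intro j
    rw [hΨ]
    refine ContDiff.mul ?_ hΦ1
    exact Complex.ofRealCLM.contDiff.comp (f j).contMDiff.contDiff
  have hcs : ∀ j, HasCompactSupport (Ψ j) := fun j => hΦ2.mul_left
  have hsp : ∀ j ξ, Ψ j ξ ≠ 0 → ∀ i, |ξ i - j.1.1 i| < δ j.1 := by
    intro j ξ h0 i
    have h1 : (f j ξ : ℂ) ≠ 0 := left_ne_zero_of_mul h0
    have h2 : f j ξ ≠ 0 := by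
      intro h3; exact h1 (by rw [h3]; simp)
    have h3 : ξ ∈ tsupport (f j) := subset_tsupport _ h2
    have h4 := hf j h3
    rw [Metric.mem_ball] at h4
    have h5 := dist_le_pi_dist ξ j.1.1 i
    rw [Real.dist_eq] at h5
    linarith
  have hres := fun j => hprop j.1 w c1 c2 (Ψ j) hw hc1 hc12 (hcd j) (hcs j) (hsp j)
  have hWF : ∀ (g : Fin k ⊕ Fin k → ℝ) (T : ℝ), WF w Φ g T = fun y => ∑ j, WF w (Ψ j) g T y := by
    intro g T
    funext y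
    unfold WF
    rw [hatN_sum hsum (fun j => (hcd j).continuous) hcs, Finset.sum_mul]
  refine ⟨fun g T hT => ?_, ?_⟩
  · rw [hWF]
    exact integrable_finsetSum _ fun j _ => (hres j).1 g T hT
  · choose C B T0 hC hb using fun j => (hres j).2
    refine ⟨∑ j, C j, ∑ j, B j, Real.exp 1 + ∑ j, |T0 j|, Finset.sum_nonneg fun j _ => hC j,
      fun g T hT => ?_⟩
    have hTs : 0 ≤ ∑ j, |T0 j| := Finset.sum_nonneg fun _ _ => abs_nonneg _
    have hTe : Real.exp 1 ≤ T := by linarith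
    have hT0 : 0 < T := by have := Real.exp_pos 1; linarith
    have hsg := sz_nonneg g
    have hTE : 0 ≤ T ^ E := by positivity
    rw [hWF, integral_finsetSum _ fun j _ => (hres j).1 g T hTe, Finset.sum_mul, Finset.sum_mul]
    refine norm_sum_le_of_le _ fun j _ => ?_
    have h1 : T0 j ≤ T := by
      have h2 := Finset.single_le_sum (f := fun j => |T0 j|) (fun j _ => abs_nonneg _) (Finset.mem_univ j)
      have h3 := le_abs_self (T0 j)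
      have h4 := Real.exp_pos 1
      linarith
    refine (hb j g T h1).trans ?_
    have h5 : B j ≤ ∑ j, B j := Finset.single_le_sum (fun _ _ => Nat.zero_le _) (Finset.mem_univ j)
    have h6 : (1 + sz g) ^ B j ≤ (1 + sz g) ^ (∑ j, B j) := pow_le_pow_right₀ (by linarith) h5
    have := hC j
    gcongr

end

end Pool.Agent.TH612.MU
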