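import Pool.Agent.TH612.MU.U1

set_option autoImplicit false

/-! Families of test functions: the shift of the line. -/

namespace Pool.Agent.TH612.MU

open Complex Filter Topology MeasureTheory Set
open scoped ContDiff
open Pool.Agent.W182.KO hiding ee SS_summable
open Pool.Agent.TH612.CF Pool.Agent.TH612.MD

noncomputable section

section

variable {ξ1 : ℝ} {ψ : ℝ → ℂ} {F1 F2 : ℂ → ℂ} {c R C1 C2 : ℝ} {M : ℕ}

theorem shift_qE (h : TF ξ1 ψ) (hξ : 0 ≤ ξ1) (D1 : DQ F1 c R M C1) (D2 : DQ F2 c R M C2)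
    (hc : 1 / 2 ≤ c) (n : ℕ) {CN : ℝ} (hCN : 0 ≤ CN)
    (hP : ∀ z : ℂ, 0 ≤ z.re → ‖P ψ z‖ * (1 + ‖z‖) ^ (n + 2 + 2 * M) ≤ CN * Real.exp (ξ1 * z.re))
    (L U t : ℝ) (hL : 1 ≤ L) (hU : 1 ≤ U) (hRU : 2 * R ≤ U) (hUt : U ≤ t) :
      ‖I0 ψ F1 F2 L t - K0 ψ F1 F2 c L t‖ ≤
        CN * (C1 * C2) * (2 * J2 + 2 * (c - 1 / 2)) * 2 ^ n *
          (Real.exp (ξ1 * (L * (c - 1 / 2))) * (1 + t) ^ (2 * M)) / U ^ n := by
  have hC1 := D1.hC
  have hC2 := D2.hC
  have hJ := J2_nonneg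
  have hc0 : 0 ≤ c - 1 / 2 := by linarith
  have ht : 0 ≤ t := by linarith
  have hLc : 0 ≤ L * (c - 1 / 2) := mul_nonneg (by linarith) hc0
  set E : ℝ := Real.exp (ξ1 * (L * (c - 1 / 2))) with hE
  have hE1 : 1 ≤ E := Real.one_le_exp (mul_nonneg hξ hLc)
  set Q : ℝ := (1 + t) ^ (2 * M) with hQ
  have hQ1 : 1 ≤ Q := one_le_pow₀ (by linarith)
  set B : ℝ := CN * (C1 * C2) * (E * Q) with hB
  have hB0 : 0 ≤ B := by positivity
  set Y : ℝ := U / 2 with hY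
  have hY0 : 0 ≤ Y := by positivity
  -- the two tails
  have t1 := tail_le (I0_cont_q h D1 D2 L t) (B := B) (n := n) hB0 (fun y => by
    refine (I0_decay_q D1 D2 hCN hP hL ht y).trans ?_
    gcongr
    rw [hB]
    calc CN * (C1 * C2 * (1 + t) ^ (2 * M)) = CN * (C1 * C2) * (1 * Q) := by rw [hQ]; ring
      _ ≤ _ := by gcongr) hY0
  have t2 := tail_le (K0_cont_q h D1 D2 L t) (B := B) (n := n) hB0 (fun y => by
    refine (K0_decay_q D1 D2 hc hCN hP hL ht y).trans (le_of_eq ?_)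
    rw [hB, hQ, hE]
    ring) hY0
  -- the rectangle
  set f : ℂ → ℂ := fun s => P ψ (L * (s - 1 / 2)) * (F1 (s + t * I) * F2 (s - t * I)) with hf
  have him1 : ∀ s : ℂ, |s.im| ≤ Y → R ≤ |(s + t * I).im| ∧ R ≤ |(s - t * I).im| := by
    intro s hs
    rw [abs_le] at hs
    have e1 : (s + t * I).im = s.im + t := by simp
    have e2 : (s - t * I).im = s.im - t := by simp
    rw [e1, e2]
    constructor
    · refine le_trans ?_ (le_abs_self _); linarith
    · refine le_trans ?_ (neg_le_abs _); linarith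
  have hdiff : ∀ s : ℂ, 1 / 2 ≤ s.re → s.re ≤ c → |s.im| ≤ Y → DifferentiableAt ℂ f s := by
    intro s h1 h2 h3
    obtain ⟨i1, i2⟩ := him1 s h3
    have d1 : DifferentiableAt ℂ (fun s : ℂ => P ψ (L * (s - 1 / 2))) s :=
      ((P_diff h) _).comp s (by fun_prop)
    have d2 : DifferentiableAt ℂ (fun s : ℂ => F1 (s + t * I)) s :=
      (D1.diff (s + t * I) (by simpa using h1) (by simpa using h2) i1).comp s (by fun_prop)
    have d3 : DifferentiableAt ℂ (fun s : ℂ => F2 (s - t * I)) s :=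
      (D2.diff (s - t * I) (by simpa using h1) (by simpa using h2) i2).comp s (by fun_prop)
    exact d1.mul (d2.mul d3)
  have hrect := Complex.integral_boundary_rect_eq_zero_of_differentiableOn f
    ((1 / 2 : ℝ) + (-Y : ℝ) * I) ((c : ℝ) + (Y : ℝ) * I) (by
      intro s hs
      rw [mem_reProdIm] at hs
      simp only [add_re, ofReal_re, mul_re, I_re, mul_zero, ofReal_im, I_im, mul_one, sub_self,
        add_zero, add_im, mul_im, zero_add] at hs
      rw [uIcc_of_le (by linarith), uIcc_of_le (by linarith)] at hs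
      exact (hdiff s hs.1.1 hs.1.2 (abs_le.2 ⟨hs.2.1, hs.2.2⟩)).differentiableWithinAt)
  simp only [add_re, ofReal_re, mul_re, I_re, mul_zero, ofReal_im, I_im, mul_one, sub_self,
    add_zero, add_im, mul_im, zero_add] at hrect
  have hor : ∀ x ∈ uIoc (1 / 2 : ℝ) c, ∀ y : ℝ, |y| = Y → ‖f (x + y * I)‖ ≤ B / (1 + Y) ^ n := by
    intro x hx y hy
    rw [uIoc_of_le hc] at hx
    have hx0 : 1 / 2 ≤ x := hx.1.le
    have e0 : ((L:ℂ) * ((x:ℂ) + y * I - 1 / 2)).re = L * (x - 1 / 2) := by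
      have : ((L:ℂ) * ((x:ℂ) + y * I - 1 / 2)) = ((L * (x - 1 / 2) : ℝ) : ℂ) + (L * y : ℝ) * I := by
        push_cast; ring
      rw [this]; simp
    have e1 : ((L:ℂ) * ((x:ℂ) + y * I - 1 / 2)).im = L * y := by
      have : ((L:ℂ) * ((x:ℂ) + y * I - 1 / 2)) = ((L * (x - 1 / 2) : ℝ) : ℂ) + (L * y : ℝ) * I := by
        push_cast; ring
      rw [this]; simp
    have hre : 0 ≤ L * (x - 1 / 2) := mul_nonneg (by linarith) (by linarith)
    have h1 := P_bd_line (ψ := ψ) hP (z := (L:ℂ) * ((x:ℂ) + y * I - 1 / 2)) (y := y)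
      (by rw [e0]; exact hre) (by
        rw [e1, abs_mul, abs_of_pos (by linarith : 0 < L)]
        exact le_mul_of_one_le_left (abs_nonneg _) hL)
    rw [e0, hy] at h1
    have h1' : Real.exp (ξ1 * (L * (x - 1 / 2))) ≤ E := by
      rw [hE]
      refine Real.exp_le_exp.2 (mul_le_mul_of_nonneg_left (mul_le_mul_of_nonneg_left ?_ (by linarith)) hξ)
      linarith [hx.2]
    have hs3 : |((x:ℂ) + y * I).im| ≤ Y := by
      have : ((x:ℂ) + y * I).im = y := by simp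
      rw [this, hy]
    obtain ⟨i1, i2⟩ := him1 _ hs3
    have g1 := D1.bd ((x:ℂ) + y * I + t * I) (by simpa using hx0) (by simpa using hx.2) i1
    have g2 := D2.bd ((x:ℂ) + y * I - t * I) (by simpa using hx0) (by simpa using hx.2) i2
    have e2 : ((x:ℂ) + y * I + t * I).im = y + t := by simp
    have e3 : ((x:ℂ) + y * I - t * I).im = y - t := by simp
    rw [e2] at g1
    rw [e3] at g2
    have h3 := one_add_abs_add y t ht
    have h4 := one_add_abs_sub y t ht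
    rw [hy] at h3 h4
    have hYp : 0 < 1 + Y := by linarith
    rw [hf]
    simp only
    rw [norm_mul, norm_mul]
    calc _ ≤ (CN * E / (1 + Y) ^ (n + 2 + 2 * M)) *
          ((C1 * ((1 + Y) * (1 + t)) ^ M) * (C2 * ((1 + Y) * (1 + t)) ^ M)) := by
          have a1 : ‖P ψ (↑L * (↑x + ↑y * I - 1 / 2))‖ ≤ CN * E / (1 + Y) ^ (n + 2 + 2 * M) := by
            refine h1.trans ?_
            gcongr
          have a2 : ‖F1 (↑x + ↑y * I + ↑t * I)‖ ≤ C1 * ((1 + Y) * (1 + t)) ^ M := by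
            refine g1.trans ?_
            gcongr
          have a3 : ‖F2 (↑x + ↑y * I - ↑t * I)‖ ≤ C2 * ((1 + Y) * (1 + t)) ^ M := by
            refine g2.trans ?_
            gcongr
          gcongr
      _ = B / (1 + Y) ^ (n + 2) := by
          rw [hB, hQ, two_mul M, pow_add (1 + Y) (n + 2) (M + M), pow_add (1 + Y) M M,
            pow_add (1 + t) M M, mul_pow]
          field_simp
      _ ≤ B / (1 + Y) ^ n := by
          refine div_le_div_of_nonneg_left hB0 (by positivity) ?_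
          exact pow_le_pow_right₀ (by linarith) (by omega)
  have hh1 : ‖∫ x in (1 / 2 : ℝ)..c, f (x + (-Y : ℝ) * I)‖ ≤ B / (1 + Y) ^ n * |c - 1 / 2| :=
    intervalIntegral.norm_integral_le_of_norm_le_const fun x hx =>
      hor x hx (-Y) (by rw [abs_neg, abs_of_nonneg hY0])
  have hh2 : ‖∫ x in (1 / 2 : ℝ)..c, f (x + (Y : ℝ) * I)‖ ≤ B / (1 + Y) ^ n * |c - 1 / 2| :=
    intervalIntegral.norm_integral_le_of_norm_le_const fun x hx =>
      hor x hx Y (abs_of_nonneg hY0)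
  rw [abs_of_nonneg hc0] at hh1 hh2
  have ei : (∫ y in (-Y)..Y, P ψ (L * y * I) *
      (F1 (1 / 2 + (y + t : ℝ) * I) * F2 (1 / 2 + (y - t : ℝ) * I))) =
      ∫ y in (-Y)..Y, f ((1 / 2 : ℝ) + y * I) := by
    congr 1; funext y
    have q1 : (L:ℂ) * y * I = L * (((1 / 2 : ℝ) : ℂ) + y * I - 1 / 2) := by push_cast; ring
    have q2 : (1 / 2 : ℂ) + ((y + t : ℝ) : ℂ) * I = ((1 / 2 : ℝ) : ℂ) + y * I + t * I := by
      push_cast; ring
    have q3 : (1 / 2 : ℂ) + ((y - t : ℝ) : ℂ) * I = ((1 / 2 : ℝ) : ℂ) + y * I - t * I := by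
      push_cast; ring
    rw [q1, q2, q3]
  have ek : (∫ y in (-Y)..Y, P ψ ((L * (c - 1 / 2) : ℝ) + L * y * I) *
      (F1 (c + (y + t : ℝ) * I) * F2 (c + (y - t : ℝ) * I))) =
      ∫ y in (-Y)..Y, f ((c : ℝ) + y * I) := by
    congr 1; funext y
    have q1 : ((L * (c - 1 / 2) : ℝ) : ℂ) + L * y * I = L * ((c : ℂ) + y * I - 1 / 2) := by
      push_cast; ring
    have q2 : (c : ℂ) + ((y + t : ℝ) : ℂ) * I = (c : ℂ) + y * I + t * I := by
      push_cast; ring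
    have q3 : (c : ℂ) + ((y - t : ℝ) : ℂ) * I = (c : ℂ) + y * I - t * I := by
      push_cast; ring
    rw [q1, q2, q3]
  rw [ei] at t1
  rw [ek] at t2
  have hdiffs : ‖(∫ y in (-Y)..Y, f ((1 / 2 : ℝ) + y * I)) - ∫ y in (-Y)..Y, f ((c : ℝ) + y * I)‖ ≤
      2 * (B / (1 + Y) ^ n * (c - 1 / 2)) := by
    have e5 : I • ((∫ y in (-Y)..Y, f ((1 / 2 : ℝ) + y * I)) - ∫ y in (-Y)..Y, f ((c : ℝ) + y * I)) =
        (∫ x in (1 / 2 : ℝ)..c, f (x + (-Y : ℝ) * I)) - ∫ x in (1 / 2 : ℝ)..c, f (x + (Y : ℝ) * I) := by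
      rw [smul_sub]
      linear_combination (-1 : ℂ) * hrect
    have e6 := congrArg norm e5
    rw [norm_smul, norm_I, one_mul] at e6
    rw [e6]
    refine (norm_sub_le _ _).trans ?_
    linarith
  have hfin : ‖I0 ψ F1 F2 L t - K0 ψ F1 F2 c L t‖ ≤
      B * J2 / (1 + Y) ^ n + 2 * (B / (1 + Y) ^ n * (c - 1 / 2)) + B * J2 / (1 + Y) ^ n := by
    have e7 : I0 ψ F1 F2 L t - K0 ψ F1 F2 c L t =
        (I0 ψ F1 F2 L t - ∫ y in (-Y)..Y, f ((1 / 2 : ℝ) + y * I)) +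
        ((∫ y in (-Y)..Y, f ((1 / 2 : ℝ) + y * I)) - ∫ y in (-Y)..Y, f ((c : ℝ) + y * I)) -
        (K0 ψ F1 F2 c L t - ∫ y in (-Y)..Y, f ((c : ℝ) + y * I)) := by ring
    rw [e7]
    refine (norm_sub_le _ _).trans (add_le_add ((norm_add_le _ _).trans (add_le_add ?_ hdiffs)) ?_)
    · exact t1
    · exact t2
  refine hfin.trans ?_
  have hYU : U ^ n ≤ 2 ^ n * (1 + Y) ^ n := by
    rw [← mul_pow]
    exact pow_le_pow_left₀ (by linarith) (by rw [hY]; linarith) n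
  have hU0 : 0 < U ^ n := by positivity
  have hYp : 0 < (1 + Y) ^ n := by positivity
  calc _ = (B * (2 * J2 + 2 * (c - 1 / 2))) / (1 + Y) ^ n := by ring
    _ ≤ (B * (2 * J2 + 2 * (c - 1 / 2))) * 2 ^ n / U ^ n := by
        rw [div_le_div_iff₀ hYp hU0]
        have : 0 ≤ B * (2 * J2 + 2 * (c - 1 / 2)) := by positivity
        calc _ ≤ B * (2 * J2 + 2 * (c - 1 / 2)) * (2 ^ n * (1 + Y) ^ n) :=
              mul_le_mul_of_nonneg_left hYU this
          _ = _ := by ring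
    _ = _ := by rw [hB]; ring

end

variable {U : Type*} {s : U → ℝ} {ξ1 : ℝ} {Ψ : U → ℝ → ℂ}

theorem N1_shiftU (h0 : UF s ξ1 Ψ) (b : Bool) {κ : ℝ} (hκ : 0 < κ) {c1 c2 : ℝ} (hc1 : 0 < c1)
    (hc12 : c1 ≤ c2) (K : ℕ) : ∃ (C : U → ℝ) (T1 : ℝ), PG s C ∧ Real.exp 1 ≤ T1 ∧ ∀ p (T u : ℝ), T1 ≤ T →
      c1 * T ≤ |u| → |u| ≤ c2 * T →
      ‖N1 (Ψ p) b (Real.log T) u - N2 (Ψ p) b κ (Real.log T) u‖ ≤ C p / T ^ K := by
  obtain ⟨X, hXd⟩ : ∃ X, X = max ξ1 0 := ⟨_, rfl⟩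
  have hX0 : 0 ≤ X := by rw [hXd]; exact le_max_right _ _
  have h : UF s X Ψ := h0.mono (by rw [hXd]; exact le_max_left _ _)
  obtain ⟨M, R, CF, hF⟩ := Ff_DQ b hκ
  have hc : (1:ℝ) / 2 ≤ 1 + 4 * κ := by linarith
  set n : ℕ := K + 2 * M + ⌈X * (1 / 2 + 4 * κ)⌉₊ with hn
  obtain ⟨CN, hCN, hP⟩ := h.bd (n + 2 + 2 * M)
  have hCF := hF.hC
  have hJ := J2_nonneg
  obtain ⟨D, hD⟩ : ∃ D : ℝ, D = CF * (2 * J2 + 2 * (1 + 4 * κ - 1 / 2)) * 2 ^ n := ⟨_, rfl⟩
  have hD0 : 0 ≤ D := by rw [hD]; positivity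
  have ha := fun p => shift_qE (h.tf p) hX0 hF (one_DQ (c := 1 + 4 * κ) (R := R) (M := M)) hc n
    (hCN.nn p) (hP p)
  have hb := fun p => shift_qE (h.tf p) hX0 (one_DQ (c := 1 + 4 * κ) (R := R) (M := M)) hF hc n
    (hCN.nn p) (hP p)
  have hc2 : 0 < c2 := by linarith
  refine ⟨fun p => CN p * D * ((1 + c2) ^ (2 * M) / c1 ^ n), max (Real.exp 1) (max 1 (2 * R) / c1),
    by (repeat' (first
      | assumption
      | exact PG.const (by positivity)
      | (refine PG.divc ?_ (by positivity))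
      | (apply PG.pow)
      | (apply PG.mul)
      | (apply PG.add)
      | (apply PG.fprod; intro _)
      | (apply PG.fsum; intro _)
      | apply_assumption)), le_max_left _ _, fun p T u hT h1 h2 => ?_⟩
  have hCp := hCN.nn p
  have hTe : Real.exp 1 ≤ T := (le_max_left _ _).trans hT
  have hT1 : 1 ≤ T := by have := Real.add_one_le_exp 1; linarith
  have hT0 : 0 < T := by linarith
  have hL : 1 ≤ Real.log T := by rwa [Real.le_log_iff_exp_le hT0]
  have hU : max 1 (2 * R) ≤ c1 * T := by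
    have := (le_max_right _ _).trans hT
    rw [div_le_iff₀ hc1] at this
    linarith
  have hU1 : 1 ≤ c1 * T := (le_max_left _ _).trans hU
  have hUR : 2 * R ≤ c1 * T := (le_max_right _ _).trans hU
  have hbd : CN p * D * (Real.exp (X * (Real.log T * (1 + 4 * κ - 1 / 2))) *
      (1 + |u|) ^ (2 * M)) / (c1 * T) ^ n ≤ CN p * D * ((1 + c2) ^ (2 * M) / c1 ^ n) / T ^ K := by
    have e1 : Real.exp (X * (Real.log T * (1 + 4 * κ - 1 / 2))) ≤ T ^ ⌈X * (1 / 2 + 4 * κ)⌉₊ := by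
      rw [exp_rpow hT0, ← Real.rpow_natCast]
      refine Real.rpow_le_rpow_of_exponent_le hT1 ?_
      refine le_trans (le_of_eq ?_) (Nat.le_ceil _)
      ring
    have e2 : (1 + |u|) ^ (2 * M) ≤ ((1 + c2) * T) ^ (2 * M) := by
      gcongr
      nlinarith
    have e3 : (c1 * T) ^ n = c1 ^ n * (T ^ K * T ^ (2 * M) * T ^ ⌈X * (1 / 2 + 4 * κ)⌉₊) := by
      rw [mul_pow, hn, pow_add T, pow_add T]
    rw [e3]
    calc _ ≤ CN p * D * (T ^ ⌈X * (1 / 2 + 4 * κ)⌉₊ * ((1 + c2) * T) ^ (2 * M)) /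
          (c1 ^ n * (T ^ K * T ^ (2 * M) * T ^ ⌈X * (1 / 2 + 4 * κ)⌉₊)) := by gcongr
      _ = _ := by
          rw [mul_pow]
          field_simp
  rcases le_total 0 u with h0 | h0
  · have g := ha p (Real.log T) (c1 * T) |u| hL hU1 hUR h1
    rw [abs_of_nonneg h0] at g hbd
    rw [N1_I0, N2_K0]
    refine le_trans (g.trans (le_of_eq ?_)) hbd
    rw [hD]; ring
  · have g := hb p (Real.log T) (c1 * T) |u| hL hU1 hUR h1
    have e : u = -|u| := by rw [abs_of_nonpos h0, neg_neg]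
    rw [show N1 (Ψ p) b (Real.log T) u = I0 (Ψ p) (fun _ => 1) (Ff b) (Real.log T) |u| by
      conv_lhs => rw [e]
      rw [N1_I0'],
      show N2 (Ψ p) b κ (Real.log T) u = K0 (Ψ p) (fun _ => 1) (Ff b) (1 + 4 * κ) (Real.log T) |u| by
      conv_lhs => rw [e]
      rw [N2_K0']]
    refine le_trans (g.trans (le_of_eq ?_)) hbd
    rw [hD]; ring

end

end Pool.Agent.TH612.MU
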