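import Pool.Agent.TH612.MU.U2

set_option autoImplicit false

/-! Families of test functions: several variables. -/

namespace Pool.Agent.TH612.MU

open Complex Filter Topology MeasureTheory Set
open scoped ContDiff ComplexConjugate
open Pool.Agent.W182.KO hiding ee SS_summable
open Pool.Agent.TH612.CF Pool.Agent.TH612.MD

noncomputable section

variable {U : Type*} {s : U → ℝ}

section multi

variable {ι : Type*} [Fintype ι] {c1 c2 : ℝ} {w : ℝ → ℂ}

/-- one off-diagonal term -/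
theorem off_termU (hw : WT c1 c2 w) (hc1 : 0 < c1) (hc12 : c1 ≤ c2) {ξ : ι → ℝ} {Ψ : U → ι → ℝ → ℂ}
    (h : ∀ i, UF s (ξ i) (fun p => Ψ p i)) {b : ι → Bool} {σ : ι → ℝ} (hb : Bal b σ) (J : ℕ) :
    ∃ C : U → ℝ, PG s C ∧ ∀ p (L T θ : ℝ) (N : ι → ℕ), 1 ≤ L → 64 ≤ T → 128 ≤ c1 * T → 0 < θ → θ ≤ 1 →
      (∀ i, 1 ≤ N i) → θ ≤ |∑ i, σ i * Real.log (N i)| →
      ‖∫ t in (c1 * T)..(c2 * T), w (t / T) * ∏ i, W1 (Ψ p i) (b i) 0 L (N i) (σ i * t)‖ ≤
        C p * T * (1 / (T * θ)) ^ J := by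
  obtain ⟨C, hC, hin⟩ := inner hw hc1 hc12 hb J
  obtain ⟨Cw, hCw, hbw⟩ := hw.bdd
  have hAd : Ad 0 := Or.inl ⟨le_rfl, by norm_num⟩
  have hP := fun i => P_decU (h i) (2 + J)
  choose CP' hCP' hPb' using hP
  have hJ2 := J2_nonneg
  refine ⟨fun p => (∏ i, CP' i p) * C * J2 ^ Fintype.card ι, by (repeat' (first
      | assumption
      | exact PG.const (by positivity)
      | (refine PG.divc ?_ (by positivity))
      | (apply PG.pow)
      | (apply PG.mul)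
      | (apply PG.add)
      | (apply PG.fprod; intro _)
      | (apply PG.fsum; intro _)
      | apply_assumption)), ?_⟩
  intro p L T θ N hL hT hcT hθ hθ1 hN hΘ
  have hD := fun i => w1_dec ((h i).tf p) (b i) hAd 2
  choose CD hCD hDb using hD
  obtain ⟨CP, hCPd⟩ : ∃ CP : ι → ℝ, CP = fun i => CP' i p := ⟨_, rfl⟩
  have hCP : ∀ i, 0 ≤ CP i := fun i => by rw [hCPd]; exact (hCP' i).nn p
  have hPb : ∀ i (L r y : ℝ), 1 ≤ L → 0 ≤ r →
      ‖P (Ψ p i) (L * (r + y * I))‖ ≤ CP i * Real.exp (ξ i * (L * r)) / (1 + |y|) ^ (2 + J) :=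
    fun i L r y h1 h2 => by rw [hCPd]; exact hPb' i p L r y h1 h2
  have hCPe : ∏ i, CP' i p = ∏ i, CP i := by rw [hCPd]
  simp only [hCPe]
  have hT0 : 0 < T := by linarith
  have hle : c1 * T ≤ c2 * T := by gcongr
  have hx : ∀ _ : ι, (0:ℝ) ≤ 0 := fun _ => le_rfl
  set G : ℝ → (ι → ℝ) → ℂ := GT w (Ψ p) b σ (fun _ => 0) L T N with hG
  have hGc : Continuous (fun p : ℝ × (ι → ℝ) => G p.1 p.2) := GT_joint hw.cont (fun i => (h i).tf p) b σ hx L T hN
  -- Fubini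
  have e1 : ∀ t : ℝ, w (t / T) * ∏ i, W1 (Ψ p i) (b i) 0 L (N i) (σ i * t) = ∫ y, G t y := by
    intro t
    rw [hG]
    unfold GT
    rw [integral_const_mul, integral_fintype_prod_volume_eq_prod
      (f := fun (i : ι) (x : ℝ) => w1 (Ψ p i) (b i) L (N i) (σ i * t) ((0:ℝ) + x * I))]
    rfl
  have hGb : ∀ t y, ‖G t y‖ ≤ Cw * (∏ i, CD i) * JI y := by
    intro t y
    rw [hG]
    unfold GT JI
    rw [norm_mul, norm_prod, mul_assoc, ← Finset.prod_mul_distrib]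
    have h1 : ∏ i, ‖w1 (Ψ p i) (b i) L (N i) (σ i * t) ((0:ℝ) + y i * I)‖ ≤
        ∏ i, (CD i * ((1 + |y i|) ^ 2)⁻¹) := by
      refine Finset.prod_le_prod (fun _ _ => norm_nonneg _) fun i _ => ?_
      refine (hDb i L (σ i * t) (y i) (N i) hL (hN i)).trans ?_
      rw [mul_zero, mul_zero, mul_zero, Real.exp_zero, Real.rpow_zero, one_mul, one_mul, add_zero,
        div_eq_mul_inv]
      have hNi : (1:ℝ) ≤ N i := by exact_mod_cast hN i
      have h2 : (N i : ℝ) ^ (-(1 / 2) : ℝ) ≤ 1 :=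
        Real.rpow_le_one_of_one_le_of_nonpos hNi (by norm_num)
      have := hCD i
      calc CD i * (N i : ℝ) ^ (-(1 / 2) : ℝ) * ((1 + |y i|) ^ 2)⁻¹ ≤ CD i * 1 * ((1 + |y i|) ^ 2)⁻¹ := by
            gcongr
        _ = _ := by ring
    have := hbw (t / T)
    gcongr
  have hint : Integrable (fun p : ℝ × (ι → ℝ) => G p.1 p.2)
      ((volume.restrict (Ioc (c1 * T) (c2 * T))).prod volume) :=
    prodint hGc.aestronglyMeasurable (Eventually.of_forall fun p _ => hGb p.1 p.2)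
  simp only [e1]
  rw [swapI hle hint]
  -- the inner integral
  have hptw : ∀ y : ι → ℝ, ‖∫ t in (c1 * T)..(c2 * T), G t y‖ ≤
      ((∏ i, CP i) * C * T * (1 / (T * θ)) ^ J) * JI y := by
    intro y
    set Θ : ℝ := ∑ i, σ i * Real.log (N i) with hΘd
    set y' : ι → ℝ := fun i => σ i * y i with hy'
    have hYY : YY y' = YY y := by
      unfold YY
      refine Finset.prod_congr rfl fun i _ => ?_
      rw [hy']
      simp only
      rw [abs_mul]
      rcases hb.1 i with h1 | h1 <;> rw [h1] <;> simp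
    have e2 : ∀ t : ℝ, G t y = (∏ i, (P (Ψ p i) (L * ((0:ℝ) + y i * I)) *
        (N i : ℂ) ^ (-(1 / 2 + ((0:ℝ) + y i * I)) : ℂ))) *
        (w (t / T) * HY b σ y' t * exp (-(I * Θ * t))) := by
      intro t
      rw [hG, hΘd, ← prod_ofReal_exp]
      unfold GT HY w1
      have : ∀ i, (N i : ℂ) ^ (-(1 / 2 + (((0:ℝ) : ℂ) + y i * I) + (σ i * t : ℝ) * I)) =
          (N i : ℂ) ^ (-(1 / 2 + (((0:ℝ) : ℂ) + y i * I)) : ℂ) * exp (-(I * (σ i * Real.log (N i)) * t)) := by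
        intro i
        have hN0 : (N i : ℂ) ≠ 0 := by exact_mod_cast (by have := hN i; omega : N i ≠ 0)
        have e3 : (-(1 / 2 + (((0:ℝ) : ℂ) + y i * I) + (σ i * t : ℝ) * I)) =
            (-(1 / 2 + (((0:ℝ) : ℂ) + y i * I)) : ℂ) + (-((σ i * t : ℝ) * I)) := by ring
        rw [e3, Complex.cpow_add _ _ hN0]
        congr 1
        rw [Complex.cpow_def_of_ne_zero hN0, ← Complex.natCast_log]
        congr 1
        push_cast; ring
      simp only [this, Finset.prod_mul_distrib]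
      have e4 : ∀ i, (1 / 2 + (((0:ℝ) : ℂ) + y i * I) + (σ i * t : ℝ) * I) =
          1 / 2 + I * (σ i * ((t : ℂ) + y' i)) := by
        intro i
        have hs : σ i * σ i = 1 := by rcases hb.1 i with h1 | h1 <;> rw [h1] <;> norm_num
        have hs' : (σ i : ℂ) * σ i = 1 := by exact_mod_cast hs
        rw [hy']
        push_cast
        linear_combination (-(I * y i)) * hs'
      simp only [e4]
      ring
    simp only [e2]
    rw [intervalIntegral.integral_const_mul, norm_mul, norm_prod]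
    have g1 := hin T θ Θ y' hT hcT hθ hθ1 hΘ
    rw [hYY] at g1
    have g2 : ∏ i, ‖P (Ψ p i) (L * ((0:ℝ) + y i * I)) * (N i : ℂ) ^ (-(1 / 2 + ((0:ℝ) + y i * I)) : ℂ)‖ ≤
        ∏ i, (CP i / (1 + |y i|) ^ (2 + J)) := by
      refine Finset.prod_le_prod (fun _ _ => norm_nonneg _) fun i _ => ?_
      have hNi : (1:ℝ) ≤ N i := by exact_mod_cast hN i
      have g3 := hPb i L 0 (y i) hL le_rfl
      rw [mul_zero, mul_zero, Real.exp_zero, mul_one] at g3
      have g4 : ‖(N i : ℂ) ^ (-(1 / 2 + ((0:ℝ) + y i * I)) : ℂ)‖ ≤ 1 := by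
        rw [Complex.norm_natCast_cpow_of_pos (hN i)]
        refine Real.rpow_le_one_of_one_le_of_nonpos hNi ?_
        simp
      rw [norm_mul]
      calc _ ≤ CP i / (1 + |y i|) ^ (2 + J) * 1 := by
            have := hCP i
            gcongr
        _ = _ := mul_one _
    have hYp : 0 < YY y := by have := YY_one y; linarith
    have e5 : ∏ i, (CP i / (1 + |y i|) ^ (2 + J)) = (∏ i, CP i) * (JI y * (YY y ^ J)⁻¹) := by
      unfold JI YY
      rw [Finset.prod_div_distrib, div_eq_mul_inv]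
      congr 1
      rw [← Finset.prod_pow, ← Finset.prod_inv_distrib, ← Finset.prod_inv_distrib,
        ← Finset.prod_mul_distrib]
      refine Finset.prod_congr rfl fun i _ => ?_
      rw [pow_add, mul_inv]
    rw [e5] at g2
    have hCPn : 0 ≤ ∏ i, CP i := Finset.prod_nonneg fun i _ => hCP i
    have hJI := (JI_pos y).le
    calc _ ≤ ((∏ i, CP i) * (JI y * (YY y ^ J)⁻¹)) * (C * T * (YY y / (T * θ)) ^ J) := by gcongr
      _ = _ := by
          rw [div_pow, one_div, inv_pow]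
          field_simp
  refine (decayI (Eventually.of_forall hptw)).trans (le_of_eq ?_)
  ring

end multi

variable {k : ℕ}

/-- size of a convolution -/
lemma Om_bdU {ξ : Fin k → ℝ} {Ψ : U → Fin k → ℝ → ℂ} (hΨ : ∀ j, UF s (ξ j) (fun p => Ψ p j)) (b : Fin k → Bool)
    {x : ℝ} (hx : Ad x) : ∃ C : U → ℝ, PG s C ∧ ∀ p (L u : ℝ) (n : ℕ), 1 ≤ L → 1 ≤ n →
      ‖Om (Ψ p) b L u n‖ ≤ C p * (Real.exp (L * x * ∑ j, ξ j) * (1 + |u|) ^ (x * ∑ j, fb (b j)) *
        ((n : ℝ) ^ k * (n : ℝ) ^ (-(1 / 2 + x)))) := by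
  have hW := fun j => W1_bdU (hΨ j) (b j) hx
  choose C' hC' hb' using hW
  refine ⟨fun p => ∏ j, C' j p, by (repeat' (first
      | assumption
      | exact PG.const (by positivity)
      | (refine PG.divc ?_ (by positivity))
      | (apply PG.pow)
      | (apply PG.mul)
      | (apply PG.add)
      | (apply PG.fprod; intro _)
      | (apply PG.fsum; intro _)
      | apply_assumption)), fun p L u n hL hn => ?_⟩
  obtain ⟨C, hCd⟩ : ∃ C : Fin k → ℝ, C = fun j => C' j p := ⟨_, rfl⟩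
  have hC : ∀ j, 0 ≤ C j := fun j => by rw [hCd]; exact (hC' j).nn p
  have hb : ∀ j (L u : ℝ) (n : ℕ), 1 ≤ L → 1 ≤ n →
      ‖W1 (Ψ p j) (b j) x L n u‖ ≤
        C j * (Real.exp (ξ j * (L * x)) * (1 + |u|) ^ (fb (b j) * x) * (n : ℝ) ^ (-(1 / 2 + x))) :=
    fun j L u n h1 h2 => by rw [hCd]; exact hb' j p L u n h1 h2
  have hCe : ∏ j, C' j p = ∏ j, C j := by rw [hCd]
  simp only [hCe]
  have hu : 0 < 1 + |u| := by have := abs_nonneg u; linarith
  have hn0 : (0:ℝ) ≤ n := Nat.cast_nonneg n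
  have h1 : ∀ d ∈ Nat.finMulAntidiag k n, ‖∏ j, W1 (Ψ p j) (b j) 0 L (d j) u‖ ≤
      (∏ j, C j) * (Real.exp (L * x * ∑ j, ξ j) * (1 + |u|) ^ (x * ∑ j, fb (b j)) *
        (n : ℝ) ^ (-(1 / 2 + x))) := by
    intro d hd
    rw [norm_prod]
    have hd1 : ∀ j, 1 ≤ d j := fun j =>
      Nat.one_le_iff_ne_zero.2 (Nat.ne_zero_of_mem_finMulAntidiag hd j)
    have h2 : ∏ j, ‖W1 (Ψ p j) (b j) 0 L (d j) u‖ ≤ ∏ j, (C j * (Real.exp (L * x * ξ j) *
        (1 + |u|) ^ (x * fb (b j)) * (d j : ℝ) ^ (-(1 / 2 + x)))) := by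
      refine Finset.prod_le_prod (fun _ _ => norm_nonneg _) fun j _ => ?_
      rw [← W1_indep ((hΨ j).tf p) (b j) hx.nonneg hL (hd1 j) u]
      refine (hb j L u (d j) hL (hd1 j)).trans (le_of_eq ?_)
      congr 3
      · congr 1; ring
      · congr 1; ring
    refine h2.trans (le_of_eq ?_)
    rw [Finset.prod_mul_distrib, Finset.prod_mul_distrib, Finset.prod_mul_distrib, ← Real.exp_sum,
      ← Finset.mul_sum, ← Real.rpow_sum_of_pos hu, ← Finset.mul_sum,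
      Real.finsetProd_rpow _ _ (fun j _ => Nat.cast_nonneg (d j))]
    congr 3
    have := Nat.prod_eq_of_mem_finMulAntidiag hd
    rw [← this]; push_cast; rfl
  unfold Om
  refine (norm_sum_le_of_le _ h1).trans ?_
  rw [Finset.sum_const, nsmul_eq_mul]
  have h3 := card_anti k n hn
  have hCp : 0 ≤ ∏ j, C j := Finset.prod_nonneg fun j _ => hC j
  calc _ ≤ (n : ℝ) ^ k * ((∏ j, C j) * (Real.exp (L * x * ∑ j, ξ j) * (1 + |u|) ^ (x * ∑ j, fb (b j)) *
        (n : ℝ) ^ (-(1 / 2 + x)))) := by gcongr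
    _ = _ := by ring

lemma phi_bdU {ξ σ : Fin k ⊕ Fin k → ℝ} {Ψ : U → Fin k ⊕ Fin k → ℝ → ℂ}
    (hΨ : ∀ i, UF s (ξ i) (fun p => Ψ p i)) (hs : ∀ i, σ i = 1 ∨ σ i = -1) (v : Fin k ⊕ Fin k → ℝ) (N : ℕ) :
    ∃ C : U → ℝ, PG s C ∧
    ∀ p (L τ : ℝ) (y : Fin k ⊕ Fin k → ℝ), 1 ≤ L → 0 ≤ τ → ‖phi (Ψ p) σ v L y ((1 / 2 + τ : ℝ) : ℂ)‖ ≤
      C p * Real.exp (L * τ * ∑ i, ξ i * |v i|) * (JI y * (YY y ^ N)⁻¹) := by
  have hP := fun i => P_decU (hΨ i) (2 + N)
  choose C' hC' hb' using hP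
  refine ⟨fun p => ∏ i, C' i p, by (repeat' (first
      | assumption
      | exact PG.const (by positivity)
      | (refine PG.divc ?_ (by positivity))
      | (apply PG.pow)
      | (apply PG.mul)
      | (apply PG.add)
      | (apply PG.fprod; intro _)
      | (apply PG.fsum; intro _)
      | apply_assumption)), fun p L τ y hL hτ => ?_⟩
  obtain ⟨C, hCd⟩ : ∃ C : Fin k ⊕ Fin k → ℝ, C = fun j => C' j p := ⟨_, rfl⟩
  have hC : ∀ j, 0 ≤ C j := fun j => by rw [hCd]; exact (hC' j).nn p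
  have hb : ∀ i (L r y : ℝ), 1 ≤ L → 0 ≤ r →
      ‖P (Ψ p i) (L * (r + y * I))‖ ≤ C i * Real.exp (ξ i * (L * r)) / (1 + |y|) ^ (2 + N) :=
    fun i L r y h1 h2 => by rw [hCd]; exact hb' i p L r y h1 h2
  have hCe : ∏ j, C' j p = ∏ j, C j := by rw [hCd]
  simp only [hCe]
  unfold phi
  rw [norm_prod]
  have h1 : ∏ i, ‖P (Ψ p i) (L * (((|v i| : ℝ) : ℂ) * (((1 / 2 + τ : ℝ) : ℂ) - 1 / 2) +
      ((σ i * y i : ℝ) : ℂ) * I))‖ ≤
      ∏ i, (C i * Real.exp (L * τ * (ξ i * |v i|)) * (((1 + |y i|) ^ 2)⁻¹ * ((1 + |y i|) ^ N)⁻¹)) := by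
    refine Finset.prod_le_prod (fun _ _ => norm_nonneg _) fun i _ => ?_
    have h2 := hb i L (|v i| * τ) (σ i * y i) hL (mul_nonneg (abs_nonneg _) hτ)
    have e1 : (((|v i| : ℝ) : ℂ) * (((1 / 2 + τ : ℝ) : ℂ) - 1 / 2) + ((σ i * y i : ℝ) : ℂ) * I) =
        ((|v i| * τ : ℝ) : ℂ) + ((σ i * y i : ℝ) : ℂ) * I := by push_cast; ring
    have e2 : |σ i * y i| = |y i| := by
      rw [abs_mul]
      rcases hs i with h | h <;> rw [h] <;> simp
    rw [e1]
    rw [e2] at h2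
    refine h2.trans (le_of_eq ?_)
    rw [div_eq_mul_inv, pow_add, mul_inv]
    congr 3
    ring
  refine h1.trans (le_of_eq ?_)
  unfold JI YY
  rw [Finset.prod_mul_distrib, Finset.prod_mul_distrib, Finset.prod_mul_distrib, ← Real.exp_sum,
    ← Finset.mul_sum, ← Finset.prod_pow, ← Finset.prod_inv_distrib]

end

end Pool.Agent.TH612.MU
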