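import Pool.Agent.TH612.MU.U3

set_option autoImplicit false

/-! Families of test functions: the off-diagonal estimate. -/

namespace Pool.Agent.TH612.MU

open Complex Filter Topology MeasureTheory Set
open scoped ContDiff ComplexConjugate
open Pool.Agent.W182.KO hiding ee SS_summable
open Pool.Agent.TH612.CF Pool.Agent.TH612.MD

noncomputable section

variable {U : Type*} {s : U → ℝ} {k : ℕ}

section side

variable {ξ : Fin k → ℝ} {Ψ : U → Fin k → ℝ → ℂ} {c2 : ℝ}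

lemma Om_TU (hΨ : ∀ j, UF s (ξ j) (fun p => Ψ p j)) (b : Fin k → Bool) (hc2 : 0 ≤ c2) {x : ℝ} (hx : 0 ≤ x) :
    ∃ C : U → ℝ, PG s C ∧ ∀ p (T u : ℝ) (n : ℕ), Real.exp 1 ≤ T → |u| ≤ c2 * T → 1 ≤ n →
      ‖Om (Ψ p) b (Real.log T) u n‖ ≤ C p * T ^ ((k + 1 + x) * lam ξ b) *
        ((n : ℝ) ^ (-(3 / 2) : ℝ) * (n : ℝ) ^ (-x)) := by
  have hAd : Ad (k + 1 + x) := Or.inr (by have : (0:ℝ) ≤ k := Nat.cast_nonneg k; linarith)
  obtain ⟨C, hC, hb⟩ := Om_bdU hΨ b hAd
  set F : ℝ := ∑ j, fb (b j) with hF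
  have hF0 : 0 ≤ F := Finset.sum_nonneg fun j _ => fb_nonneg _
  have hF1 : 0 ≤ (1 + c2) ^ ((k + 1 + x) * F) := by positivity
  refine ⟨fun p => C p * (1 + c2) ^ ((k + 1 + x) * F), by (repeat' (first
      | assumption
      | exact PG.const (by positivity)
      | (refine PG.divc ?_ (by positivity))
      | (apply PG.pow)
      | (apply PG.mul)
      | (apply PG.add)
      | (apply PG.fprod; intro _)
      | (apply PG.fsum; intro _)
      | apply_assumption)), fun p T u n hT hu hn => ?_⟩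
  have hCp := hC.nn p
  have hT1 : 1 ≤ T := by have := Real.add_one_le_exp 1; linarith
  have hT0 : 0 < T := by linarith
  have hL : 1 ≤ Real.log T := by rwa [Real.le_log_iff_exp_le hT0]
  have hX := hAd.nonneg
  have g := hb p (Real.log T) u n hL hn
  rw [npow_eq hn] at g
  refine g.trans ?_
  have e1 : Real.exp (Real.log T * (k + 1 + x) * ∑ j, ξ j) = T ^ ((k + 1 + x) * ∑ j, ξ j) := by
    rw [Real.rpow_def_of_pos hT0]
    congr 1; ring
  have e2 : (1 + |u|) ^ ((k + 1 + x) * F) ≤ (1 + c2) ^ ((k + 1 + x) * F) * T ^ ((k + 1 + x) * F) := by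
    rw [← Real.mul_rpow (by linarith) hT0.le]
    refine Real.rpow_le_rpow (by positivity) ?_ (by positivity)
    nlinarith
  have e3 : T ^ ((k + 1 + x) * lam ξ b) = T ^ ((k + 1 + x) * ∑ j, ξ j) * T ^ ((k + 1 + x) * F) := by
    rw [← Real.rpow_add hT0]
    unfold lam
    rw [Finset.sum_add_distrib, hF]
    congr 1; ring
  rw [e1, e3]
  calc _ ≤ C p * (T ^ ((k + 1 + x) * ∑ j, ξ j) * ((1 + c2) ^ ((k + 1 + x) * F) * T ^ ((k + 1 + x) * F)) *
        ((n : ℝ) ^ (-(3 / 2) : ℝ) * (n : ℝ) ^ (-x))) := by gcongr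
    _ = _ := by ring

/-- polynomial bound -/
lemma Om_pU (hΨ : ∀ j, UF s (ξ j) (fun p => Ψ p j)) (b : Fin k → Bool) (hc2 : 0 ≤ c2) :
    ∃ C : U → ℝ, PG s C ∧ ∀ p (T u : ℝ) (n : ℕ), Real.exp 1 ≤ T → |u| ≤ c2 * T →
      ‖Om (Ψ p) b (Real.log T) u n‖ ≤ C p * T ^ ((k + 1) * lam ξ b) * (n : ℝ) ^ (-(3 / 2) : ℝ) := by
  obtain ⟨C, hC, hb⟩ := Om_TU hΨ b hc2 le_rfl
  refine ⟨C, hC, fun p T u n hT hu => ?_⟩
  have hCp := hC.nn p
  have hT1 : 1 ≤ T := by have := Real.add_one_le_exp 1; linarith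
  have hT0 : 0 < T := by linarith
  rcases Nat.eq_zero_or_pos n with hn | hn
  · subst hn
    rw [Om_zero, norm_zero]
    positivity
  · have := hb p T u n hT hu hn
    rw [neg_zero, Real.rpow_zero, mul_one, add_zero] at this
    exact this

/-- tail bound -/
lemma Om_tU (hΨ : ∀ j, UF s (ξ j) (fun p => Ψ p j)) (b : Fin k → Bool) (hc2 : 0 ≤ c2) {ε : ℝ} (hε : 0 < ε)
    (K : ℕ) : ∃ C : U → ℝ, PG s C ∧ ∀ p (T u : ℝ) (n : ℕ), Real.exp 1 ≤ T → |u| ≤ c2 * T →
      T ^ (lam ξ b + ε) ≤ n → ‖Om (Ψ p) b (Real.log T) u n‖ ≤ C p / T ^ K * (n : ℝ) ^ (-(3 / 2) : ℝ) := by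
  set x : ℝ := (K + (k + 1) * |lam ξ b|) / ε with hx
  have hx0 : 0 ≤ x := by positivity
  obtain ⟨C, hC, hb⟩ := Om_TU hΨ b hc2 hx0
  refine ⟨C, hC, fun p T u n hT hu hn => ?_⟩
  have hCp := hC.nn p
  have hT1 : 1 ≤ T := by have := Real.add_one_le_exp 1; linarith
  have hT0 : 0 < T := by linarith
  have hTp : 0 < T ^ (lam ξ b + ε) := by positivity
  have hn0 : (0:ℝ) < n := by linarith
  have hn1 : 1 ≤ n := by
    rcases Nat.eq_zero_or_pos n with h | h
    · subst h; simp at hn0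
    · exact h
  refine (hb p T u n hT hu hn1).trans ?_
  have g1 : (n : ℝ) ^ (-x) ≤ T ^ (-((lam ξ b + ε) * x)) := by
    rw [Real.rpow_neg hn0.le, Real.rpow_neg hT0.le, Real.rpow_mul hT0.le]
    refine inv_anti₀ (by positivity) ?_
    exact Real.rpow_le_rpow hTp.le hn hx0
  have g2 : T ^ ((k + 1 + x) * lam ξ b) * T ^ (-((lam ξ b + ε) * x)) ≤ 1 / T ^ K := by
    rw [← Real.rpow_add hT0, one_div, ← Real.rpow_natCast, ← Real.rpow_neg hT0.le]
    refine Real.rpow_le_rpow_of_exponent_le hT1 ?_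
    have h1 : ε * x = K + (k + 1) * |lam ξ b| := by rw [hx]; field_simp
    have h2 : (k + 1) * lam ξ b ≤ (k + 1) * |lam ξ b| :=
      mul_le_mul_of_nonneg_left (le_abs_self _) (by positivity)
    nlinarith
  have hq : 0 ≤ (n : ℝ) ^ (-(3 / 2) : ℝ) := by positivity
  calc _ ≤ C p * T ^ ((k + 1 + x) * lam ξ b) * ((n : ℝ) ^ (-(3 / 2) : ℝ) * T ^ (-((lam ξ b + ε) * x))) := by
        gcongr
    _ = C p * (T ^ ((k + 1 + x) * lam ξ b) * T ^ (-((lam ξ b + ε) * x))) * (n : ℝ) ^ (-(3 / 2) : ℝ) := by ring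
    _ ≤ C p * (1 / T ^ K) * (n : ℝ) ^ (-(3 / 2) : ℝ) := by gcongr
    _ = _ := by ring

end side

variable {v : Fin k ⊕ Fin k → ℝ} {μ : ℝ} {ξ : Fin k ⊕ Fin k → ℝ} {Ψ : U → Fin k ⊕ Fin k → ℝ → ℂ}
  {c1 c2 : ℝ} {w : ℝ → ℂ}

/-- the finite off-diagonal sum -/
theorem fin_offU (hw : WT c1 c2 w) (hc1 : 0 < c1) (hc12 : c1 ≤ c2)
    (hΨ : ∀ i, UF s (ξ i) (fun p => Ψ p i))
    {π : Equiv.Perm (Fin k ⊕ Fin k)} (h : GV v π) (J : ℕ) :
    ∃ C : U → ℝ, PG s C ∧ ∀ p (L T R : ℝ) (x : ℕ × ℕ), 1 ≤ L → 64 ≤ T → 128 ≤ c1 * T → 0 ≤ R →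
      ((x.1 : ℝ) ≤ R ∨ (x.2 : ℝ) ≤ R) →
      IntervalIntegrable (fun t => w (t / T) * og (Om (sA π (Ψ p)) (sA π (bv v)) L t)
        (Om (sB π (Ψ p)) (sB π (bv v)) L (-t)) x) volume (c1 * T) (c2 * T) ∧
      ‖∫ t in (c1 * T)..(c2 * T), w (t / T) * og (Om (sA π (Ψ p)) (sA π (bv v)) L t)
        (Om (sB π (Ψ p)) (sB π (bv v)) L (-t)) x‖ ≤
        ((x.1 : ℝ) ^ k * (x.2 : ℝ) ^ k) * (C p * T * (1 / (T * (1 / (R + 1)))) ^ J) := by
  obtain ⟨C, hC, hoff⟩ := off_termU hw hc1 hc12 hΨ (bal h) J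
  refine ⟨C, hC, fun p L T R x hL hT hcT hR hxR => ?_⟩
  have hCp := hC.nn p
  have hT0 : 0 < T := by linarith
  have hle : c1 * T ≤ c2 * T := by gcongr
  have hca : 0 ≤ c1 * T := by positivity
  by_cases hx0 : x.1 = x.2
  · have e : (fun t => w (t / T) * og (Om (sA π (Ψ p)) (sA π (bv v)) L t)
        (Om (sB π (Ψ p)) (sB π (bv v)) L (-t)) x) = fun _ => 0 := by
      funext t
      unfold og
      rw [if_pos hx0, mul_zero]
    rw [e]
    refine ⟨by simp, ?_⟩
    rw [intervalIntegral.integral_zero, norm_zero]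
    positivity
  · have e : (fun t => w (t / T) * og (Om (sA π (Ψ p)) (sA π (bv v)) L t)
        (Om (sB π (Ψ p)) (sB π (bv v)) L (-t)) x) = fun t =>
        ∑ d ∈ Nat.finMulAntidiag k x.1, ∑ d' ∈ Nat.finMulAntidiag k x.2,
          w (t / T) * ∏ i, W1 (Ψ p i) (bv v i) 0 L (NN π d d' i) (sv v i * t) := by
      funext t
      unfold og
      rw [if_neg hx0, Om_mul h, Finset.mul_sum]
      refine Finset.sum_congr rfl fun d _ => ?_
      rw [Finset.mul_sum]
    rw [e]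
    have hi : ∀ d ∈ Nat.finMulAntidiag k x.1, ∀ d' ∈ Nat.finMulAntidiag k x.2,
        IntervalIntegrable (fun t => w (t / T) * ∏ i, W1 (Ψ p i) (bv v i) 0 L (NN π d d' i) (sv v i * t))
          volume (c1 * T) (c2 * T) := by
      intro d hd d' hd'
      rw [intervalIntegrable_iff_integrableOn_Ioc_of_le hle]
      have hN := NN_pos π hd hd'
      have hAd : Ad 0 := Or.inl ⟨le_rfl, by norm_num⟩
      obtain ⟨Cw, hCw, hbw⟩ := hw.bdd
      have hD := fun i => w1_dec ((hΨ i).tf p) (bv v i) hAd 2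
      choose CD hCD hDb using hD
      have hGc := GT_joint hw.cont (fun i => (hΨ i).tf p) (bv v) (sv v) (x := fun _ => 0) (fun _ => le_rfl) L T hN
      have hint := prodintC (G := GT w (Ψ p) (bv v) (sv v) (fun _ => 0) L T (NN π d d'))
        (a := c1 * T) (b := c2 * T) (B := Cw * ∏ i, CD i) hGc.continuousOn
        (Eventually.of_forall fun y t _ => by
          unfold GT JI
          rw [norm_mul, norm_prod, mul_assoc, ← Finset.prod_mul_distrib]
          have h1 : ∏ i, ‖w1 (Ψ p i) (bv v i) L (NN π d d' i) (sv v i * t) ((0:ℝ) + y i * I)‖ ≤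
              ∏ i, (CD i * ((1 + |y i|) ^ 2)⁻¹) := by
            refine Finset.prod_le_prod (fun _ _ => norm_nonneg _) fun i _ => ?_
            refine (hDb i L (sv v i * t) (y i) (NN π d d' i) hL (hN i)).trans ?_
            rw [mul_zero, mul_zero, mul_zero, Real.exp_zero, Real.rpow_zero, one_mul, one_mul, add_zero,
              div_eq_mul_inv]
            have hNi : (1:ℝ) ≤ NN π d d' i := by exact_mod_cast hN i
            have h2 : (NN π d d' i : ℝ) ^ (-(1 / 2) : ℝ) ≤ 1 :=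
              Real.rpow_le_one_of_one_le_of_nonpos hNi (by norm_num)
            have := hCD i
            calc CD i * (NN π d d' i : ℝ) ^ (-(1 / 2) : ℝ) * ((1 + |y i|) ^ 2)⁻¹ ≤
                CD i * 1 * ((1 + |y i|) ^ 2)⁻¹ := by gcongr
              _ = _ := by ring
          have := hbw (t / T)
          gcongr)
      refine hint.integral_prod_left.congr (Eventually.of_forall fun t => ?_)
      simp only
      unfold GT
      rw [integral_const_mul, integral_fintype_prod_volume_eq_prod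
        (f := fun (i : Fin k ⊕ Fin k) (x : ℝ) => w1 (Ψ p i) (bv v i) L (NN π d d' i) (sv v i * t)
          ((0:ℝ) + x * I))]
      rfl
    have hi2 : ∀ d ∈ Nat.finMulAntidiag k x.1, IntervalIntegrable (fun t =>
        ∑ d' ∈ Nat.finMulAntidiag k x.2,
          w (t / T) * ∏ i, W1 (Ψ p i) (bv v i) 0 L (NN π d d' i) (sv v i * t))
          volume (c1 * T) (c2 * T) := fun d hd => by
      have := IntervalIntegrable.sum (Nat.finMulAntidiag k x.2) (fun d' hd' => hi d hd d' hd')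
      refine this.congr (fun t _ => ?_)
      simp
    constructor
    · have := IntervalIntegrable.sum (Nat.finMulAntidiag k x.1) (fun d hd => hi2 d hd)
      refine this.congr (fun t _ => ?_)
      simp
    · rw [intervalIntegral.integral_finsetSum fun d hd => hi2 d hd]
      set Bd : ℝ := C p * T * (1 / (T * (1 / (R + 1)))) ^ J with hBd
      have hBd0 : 0 ≤ Bd := by positivity
      have hterm : ∀ d ∈ Nat.finMulAntidiag k x.1, ‖∫ t in (c1 * T)..(c2 * T),
          ∑ d' ∈ Nat.finMulAntidiag k x.2,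
          w (t / T) * ∏ i, W1 (Ψ p i) (bv v i) 0 L (NN π d d' i) (sv v i * t)‖ ≤
          (x.2 : ℝ) ^ k * Bd := by
        intro d hd
        rw [intervalIntegral.integral_finsetSum fun d' hd' => hi d hd d' hd']
        have h1 : ∀ d' ∈ Nat.finMulAntidiag k x.2, ‖∫ t in (c1 * T)..(c2 * T),
            w (t / T) * ∏ i, W1 (Ψ p i) (bv v i) 0 L (NN π d d' i) (sv v i * t)‖ ≤ Bd := by
          intro d' hd'
          have hx1 : 1 ≤ x.1 := Nat.one_le_iff_ne_zero.2 (Nat.mem_finMulAntidiag.1 hd).2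
          have hx2 : 1 ≤ x.2 := Nat.one_le_iff_ne_zero.2 (Nat.mem_finMulAntidiag.1 hd').2
          refine hoff p L T (1 / (R + 1)) (NN π d d') hL hT hcT (by positivity) ?_ (NN_pos π hd hd') ?_
          · rw [div_le_one (by linarith)]
            linarith
          · rw [sv_log h hd hd']
            exact log_sep hx1 hx2 hx0 hxR
        refine (norm_sum_le_of_le _ h1).trans ?_
        rw [Finset.sum_const, nsmul_eq_mul]
        rcases Nat.eq_zero_or_pos x.2 with hz | hz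
        · rw [hz]; simp; positivity
        · have := card_anti k x.2 hz
          gcongr
      refine (norm_sum_le_of_le _ hterm).trans ?_
      rw [Finset.sum_const, nsmul_eq_mul]
      rcases Nat.eq_zero_or_pos x.1 with hz | hz
      · rw [hz]; simp; positivity
      · have := card_anti k x.1 hz
        calc _ ≤ (x.1 : ℝ) ^ k * ((x.2 : ℝ) ^ k * Bd) := by gcongr
          _ = _ := by ring

end

end Pool.Agent.TH612.MU
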