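import Pool.Agent.TH612.MU.U4

set_option autoImplicit false

/-! Families of test functions: the product of the zeta factors against the swap terms. -/

namespace Pool.Agent.TH612.MU

open Complex Filter Topology MeasureTheory Set
open scoped ContDiff ComplexConjugate
open Pool.Agent.W182.KO hiding ee SS_summable
open Pool.Agent.TH612.CF Pool.Agent.TH612.MD

noncomputable section

variable {U : Type*} {s : U → ℝ} {k : ℕ} {v : Fin k ⊕ Fin k → ℝ} {μ : ℝ} {ξ : Fin k ⊕ Fin k → ℝ}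
  {Ψ : U → Fin k ⊕ Fin k → ℝ → ℂ} {c1 c2 : ℝ} {w : ℝ → ℂ}

lemma Jp_bdU (hv : VV v μ) (hΨ : ∀ i, UF s (ξ i) (fun p => Ψ p i)) {c0 : ℝ} (h1 : 0 < c0) (h2 : c0 < 1 / 4) :
    ∃ C : U → ℝ, PG s C ∧ ∀ p (π : Equiv.Perm (Fin k ⊕ Fin k)) (L t : ℝ) (y : Fin k ⊕ Fin k → ℝ), 1 ≤ L →
      0 ≤ t → ‖phi (Ψ p) (sv v) v L y ((1 / 2 + c0 : ℝ) : ℂ) *
        Rt t (LR y v ((1 / 2 + c0 : ℝ) : ℂ)) π‖ ≤
      C p * (Real.exp (L * c0 * ∑ i, ξ i * |v i|) * (1 + t) ^ (ee v π * c0)) * JI y := by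
  have hμ := hv.pos
  obtain ⟨K, B, hK, hR⟩ := Rt_bdv hv h2 (δ := μ * c0) (by positivity)
  obtain ⟨C, hC, hphi⟩ := phi_bdU hΨ (sv_pm v) v B
  have hK0 : 0 ≤ K := by linarith
  refine ⟨fun p => C p * K, by (repeat' (first
      | assumption
      | exact PG.const (by positivity)
      | (refine PG.divc ?_ (by positivity))
      | (apply PG.pow)
      | (apply PG.mul)
      | (apply PG.add)
      | (apply PG.fprod; intro _)
      | (apply PG.fsum; intro _)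
      | apply_assumption)), fun p π L t y hL ht => ?_⟩
  have hCp := hC.nn p
  have hre0 : (((1 / 2 + c0 : ℝ) : ℂ)).re - 1 / 2 = c0 := by rw [Complex.ofReal_re]; ring
  have g1 := hphi p L c0 y hL h1.le
  have g2 := hR π y ((1 / 2 + c0 : ℝ) : ℂ) t (by rw [hre0, abs_of_pos h1]) ht (fun j l => by
    have := sep_linev hv y ((1 / 2 + c0 : ℝ) : ℂ) (inl_ne_inr π j l)
    rwa [hre0, abs_of_pos h1] at this)
  rw [hre0, Complex.ofReal_im, abs_zero, add_zero, mul_one] at g2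
  have hn := ny_one y
  have hY := YY_one y
  have g4 : ny y ^ B ≤ YY y ^ B := by
    have := ny_le_YY y
    gcongr
  have hJ := (JI_pos y).le
  have hYp : 0 < YY y ^ B := by positivity
  rw [norm_mul]
  calc _ ≤ (C p * Real.exp (L * c0 * ∑ i, ξ i * |v i|) * (JI y * (YY y ^ B)⁻¹)) *
        (K * YY y ^ B * (1 + t) ^ (ee v π * c0)) := by
        have := g2.trans (by gcongr : K * ny y ^ B * (1 + t) ^ (ee v π * c0) ≤
          K * YY y ^ B * (1 + t) ^ (ee v π * c0))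
        gcongr
    _ = _ := by field_simp

lemma Jp_normU (hv : VV v μ) (hΨ : ∀ i, UF s (ξ i) (fun p => Ψ p i)) {c0 : ℝ} (h1 : 0 < c0) (h2 : c0 < 1 / 4) :
    ∃ C : U → ℝ, PG s C ∧ ∀ p (π : Equiv.Perm (Fin k ⊕ Fin k)) (L t : ℝ), 1 ≤ L → 0 ≤ t →
      ‖Jp (Ψ p) v c0 L π t‖ ≤ C p * (Real.exp (L * c0 * ∑ i, ξ i * |v i|) * (1 + t) ^ (ee v π * c0)) := by
  obtain ⟨C, hC, hb⟩ := Jp_bdU hv hΨ h1 h2
  have hJ2 := J2_nonneg
  refine ⟨fun p => C p * J2 ^ Fintype.card (Fin k ⊕ Fin k), by (repeat' (first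
      | assumption
      | exact PG.const (by positivity)
      | (refine PG.divc ?_ (by positivity))
      | (apply PG.pow)
      | (apply PG.mul)
      | (apply PG.add)
      | (apply PG.fprod; intro _)
      | (apply PG.fsum; intro _)
      | apply_assumption)), fun p π L t hL ht => ?_⟩
  refine (decayI (Eventually.of_forall fun y => hb p π L t y hL ht)).trans (le_of_eq ?_)
  ring

lemma pNU (hΨ : ∀ i, UF s (ξ i) (fun p => Ψ p i)) (v : Fin k ⊕ Fin k → ℝ) (hc1 : 0 < c1) (hc12 : c1 ≤ c2) (K : ℕ) :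
    ∃ (C : U → ℝ) (T1 : ℝ), PG s C ∧ Real.exp 1 ≤ T1 ∧ ∀ q (T t : ℝ), T1 ≤ T → c1 * T ≤ t → t ≤ c2 * T →
      ‖∏ i, N1 (Ψ q i) (bv v i) (Real.log T) (sv v i * t) -
        ∏ i, N2 (Ψ q i) (bv v i) (1 / 8) (Real.log T) (sv v i * t)‖ ≤ C q / T ^ K := by
  have hc2 : 0 ≤ c2 := by linarith
  have hN := fun i => N2_bdU (hΨ i) (bv v i) hc2
  choose C₀ p hC₀ hp hb₀ using hN
  set n : ℕ := (Finset.univ : Finset (Fin k ⊕ Fin k)).card with hn
  set P : ℝ := ∑ i, p i with hP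
  have hP0 : 0 ≤ P := Finset.sum_nonneg fun i _ => hp i
  set K' : ℕ := K + ⌈P * n⌉₊ with hK'
  have hS := fun i => N1_shiftU (hΨ i) (bv v i) (κ := 1 / 8) (by norm_num) hc1 hc12 K'
  choose C₀' T1 hC₀' hT1 hb₀' using hS
  refine ⟨fun q => n * (1 + ∑ i, C₀ i q + ∑ i, C₀' i q) ^ n * ∑ i, C₀' i q, Real.exp 1 + ∑ i, |T1 i|,
    by (repeat' (first
      | assumption
      | exact PG.const (by positivity)
      | (refine PG.divc ?_ (by positivity))
      | (apply PG.pow)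
      | (apply PG.mul)
      | (apply PG.add)
      | (apply PG.fprod; intro _)
      | (apply PG.fsum; intro _)
      | apply_assumption)), by
    have : 0 ≤ ∑ i, |T1 i| := Finset.sum_nonneg fun i _ => abs_nonneg _
    linarith, fun q T t hT h1 h2 => ?_⟩
  obtain ⟨C, hCd⟩ : ∃ C : Fin k ⊕ Fin k → ℝ, C = fun i => C₀ i q := ⟨_, rfl⟩
  obtain ⟨C', hCd'⟩ : ∃ C' : Fin k ⊕ Fin k → ℝ, C' = fun i => C₀' i q := ⟨_, rfl⟩
  have hC : ∀ i, 0 ≤ C i := fun i => by rw [hCd]; exact (hC₀ i).nn q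
  have hC' : ∀ i, 0 ≤ C' i := fun i => by rw [hCd']; exact (hC₀' i).nn q
  have hb : ∀ i (T u : ℝ), Real.exp 1 ≤ T → |u| ≤ c2 * T →
      ‖N2 (Ψ q i) (bv v i) (1 / 8) (Real.log T) u‖ ≤ C i * T ^ (p i) :=
    fun i T u h1 h2 => by rw [hCd]; exact hb₀ i q T u h1 h2
  have hb' : ∀ i (T u : ℝ), T1 i ≤ T → c1 * T ≤ |u| → |u| ≤ c2 * T →
      ‖N1 (Ψ q i) (bv v i) (Real.log T) u - N2 (Ψ q i) (bv v i) (1 / 8) (Real.log T) u‖ ≤ C' i / T ^ K' :=
    fun i T u h1 h2 h3 => by rw [hCd']; exact hb₀' i q T u h1 h2 h3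
  have hCe : ∑ j, C₀ j q = ∑ j, C j := by rw [hCd]
  have hCe' : ∑ j, C₀' j q = ∑ j, C' j := by rw [hCd']
  simp only [hCe, hCe']
  have hS0 : 0 ≤ ∑ i, C i := Finset.sum_nonneg fun i _ => hC i
  have hS0' : 0 ≤ ∑ i, C' i := Finset.sum_nonneg fun i _ => hC' i
  set B0 : ℝ := 1 + ∑ i, C i + ∑ i, C' i with hB0
  have hB01 : 1 ≤ B0 := by linarith
  have hTs : 0 ≤ ∑ i, |T1 i| := Finset.sum_nonneg fun i _ => abs_nonneg _
  have hTe : Real.exp 1 ≤ T := by linarith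
  have hT1' : ∀ i, T1 i ≤ T := fun i => by
    have := Finset.single_le_sum (f := fun i => |T1 i|) (fun i _ => abs_nonneg _) (Finset.mem_univ i)
    have h3 := le_abs_self (T1 i)
    have h4 := Real.exp_pos 1
    linarith
  have hT1 : 1 ≤ T := by have := Real.add_one_le_exp 1; linarith
  have hT0 : 0 < T := by linarith
  have ht0 : 0 ≤ t := by
    have : 0 < c1 * T := by positivity
    linarith
  have habs : ∀ i, |sv v i * t| = t := fun i => by
    rw [abs_mul, abs_of_nonneg ht0]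
    rcases sv_pm v i with h | h <;> rw [h] <;> simp
  have hd : ∀ i, ‖N1 (Ψ q i) (bv v i) (Real.log T) (sv v i * t) -
        N2 (Ψ q i) (bv v i) (1 / 8) (Real.log T) (sv v i * t)‖ ≤ (∑ i, C' i) / T ^ K' := fun i => by
    refine (hb' i T (sv v i * t) (hT1' i) (by rw [habs]; exact h1) (by rw [habs]; exact h2)).trans ?_
    have := Finset.single_le_sum (f := C') (fun i _ => hC' i) (Finset.mem_univ i)
    gcongr
  have h2b : ∀ i, ‖N2 (Ψ q i) (bv v i) (1 / 8) (Real.log T) (sv v i * t)‖ ≤ (∑ i, C i) * T ^ P := fun i => by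
    refine (hb i T (sv v i * t) hTe (by rw [habs]; exact h2)).trans ?_
    have g1 := Finset.single_le_sum (f := C) (fun i _ => hC i) (Finset.mem_univ i)
    have g2 := Finset.single_le_sum (f := p) (fun i _ => hp i) (Finset.mem_univ i)
    have g3 : T ^ (p i) ≤ T ^ P := Real.rpow_le_rpow_of_exponent_le hT1 g2
    have := hC i
    gcongr
  have hTP : 1 ≤ T ^ P := Real.one_le_rpow hT1 hP0
  have hTK : (∑ i, C' i) / T ^ K' ≤ ∑ i, C' i := div_le_self hS0' (one_le_pow₀ hT1)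
  have key := prod_dif (Finset.univ : Finset (Fin k ⊕ Fin k))
    (fun i => N1 (Ψ q i) (bv v i) (Real.log T) (sv v i * t))
    (fun i => N2 (Ψ q i) (bv v i) (1 / 8) (Real.log T) (sv v i * t)) (B := B0 * T ^ P)
    (ε := (∑ i, C' i) / T ^ K') (by nlinarith) (by positivity)
    (fun i => by
      have g := norm_le_norm_add_norm_sub' (N1 (Ψ q i) (bv v i) (Real.log T) (sv v i * t))
        (N2 (Ψ q i) (bv v i) (1 / 8) (Real.log T) (sv v i * t))
      have g2 := h2b i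
      have g3 := hd i
      nlinarith)
    (fun i => (h2b i).trans (by
      have : ∑ i, C i ≤ B0 := by linarith
      gcongr)) hd
  refine key.trans ?_
  rw [← hn, mul_pow]
  have e1 : (T ^ P) ^ n ≤ T ^ ⌈P * n⌉₊ := by
    rw [← Real.rpow_natCast (T ^ P), ← Real.rpow_mul hT0.le, ← Real.rpow_natCast]
    exact Real.rpow_le_rpow_of_exponent_le hT1 (Nat.le_ceil _)
  have e2 : T ^ K' = T ^ K * T ^ ⌈P * n⌉₊ := by rw [hK', pow_add]
  rw [e2]
  calc (n:ℝ) * (B0 ^ n * (T ^ P) ^ n) * ((∑ i, C' i) / (T ^ K * T ^ ⌈P * n⌉₊)) ≤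
      (n:ℝ) * (B0 ^ n * T ^ ⌈P * n⌉₊) * ((∑ i, C' i) / (T ^ K * T ^ ⌈P * n⌉₊)) := by gcongr
    _ = _ := by field_simp

/-- truncation for the difference -/
lemma pTU (hv : VV v μ) (hΨ : ∀ i, UF s (ξ i) (fun p => Ψ p i)) {π : Equiv.Perm (Fin k ⊕ Fin k)} (h : GV v π)
    {c0 : ℝ} (h1 : 0 < c0) (h2 : c0 < 1 / 4) (hc2 : 0 ≤ c2) {ε : ℝ} (hε : 0 < ε) (K : ℕ) :
    ∃ C : U → ℝ, PG s C ∧ ∀ q (T t : ℝ), Real.exp 1 ≤ T → 0 ≤ t → t ≤ c2 * T →
      ‖∏ i, N2 (Ψ q i) (bv v i) (1 / 8) (Real.log T) (sv v i * t) - Jp (Ψ q) v c0 (Real.log T) π t -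
        ∑ x ∈ Finset.range ⌈T ^ (lam (sA π ξ) (sA π (bv v)) + ε)⌉₊ ×ˢ
          Finset.range ⌈T ^ (lam (sB π ξ) (sB π (bv v)) + ε)⌉₊,
          og (Om (sA π (Ψ q)) (sA π (bv v)) (Real.log T) t)
            (Om (sB π (Ψ q)) (sB π (bv v)) (Real.log T) (-t)) x‖ ≤ C q / T ^ K := by
  have hA : ∀ j, UF s (sA π ξ j) (fun p => sA π (Ψ p) j) := fun j => hΨ _
  have hB : ∀ j, UF s (sB π ξ j) (fun p => sB π (Ψ p) j) := fun j => hΨ _
  set la : ℝ := lam (sA π ξ) (sA π (bv v)) with hla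
  set lb : ℝ := lam (sB π ξ) (sB π (bv v)) with hlb
  obtain ⟨CA, hCA, hbA⟩ := Om_pU hA (sA π (bv v)) hc2
  obtain ⟨CB, hCB, hbB⟩ := Om_pU hB (sB π (bv v)) hc2
  set Q : ℕ := ⌈(k + 1) * (|la| + |lb|)⌉₊ with hQ
  obtain ⟨DA, hDA, htA⟩ := Om_tU hA (sA π (bv v)) hc2 hε (K + Q)
  obtain ⟨DB, hDB, htB⟩ := Om_tU hB (sB π (bv v)) hc2 hε (K + Q)
  have hZZ := ZZ_nonneg
  refine ⟨fun q => (DA q * CB q + CA q * DB q) * ZZ ^ 2, by (repeat' (first
      | assumption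
      | exact PG.const (by positivity)
      | (refine PG.divc ?_ (by positivity))
      | (apply PG.pow)
      | (apply PG.mul)
      | (apply PG.add)
      | (apply PG.fprod; intro _)
      | (apply PG.fsum; intro _)
      | apply_assumption)), fun q T t hT ht0 ht => ?_⟩
  have hCAq := hCA.nn q
  have hCBq := hCB.nn q
  have hDAq := hDA.nn q
  have hDBq := hDB.nn q
  have hT1 : 1 ≤ T := by have := Real.add_one_le_exp 1; linarith
  have hT0 : 0 < T := by linarith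
  have hL : 1 ≤ Real.log T := by rwa [Real.le_log_iff_exp_le hT0]
  have hu : |t| ≤ c2 * T := by rwa [abs_of_nonneg ht0]
  have hu' : |-t| ≤ c2 * T := by rwa [abs_neg]
  have sA' := Om_hasSum (fun j => (hA j).tf q) (sA π (bv v)) (κ := 1 / 8) (by norm_num) hL t
  have sB' := Om_hasSum (fun j => (hB j).tf q) (sB π (bv v)) (κ := 1 / 8) (by norm_num) hL (-t)
  have sJ := good_hasSum hv (fun i => (hΨ i).tf q) h h1 h2 hL ht0
  have eJ : Jp (Ψ q) v c0 (Real.log T) π t = ∑' n, Om (sA π (Ψ q)) (sA π (bv v)) (Real.log T) t n *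
      Om (sB π (Ψ q)) (sB π (bv v)) (Real.log T) (-t) n := sJ.tsum_eq.symm
  rw [prod_N2 h (Ψ q), ← sA'.tsum_eq, ← sB'.tsum_eq, eJ]
  refine (trunc (pA := CA q * T ^ ((k + 1) * la)) (pB := CB q * T ^ ((k + 1) * lb))
    (tA := DA q / T ^ (K + Q)) (tB := DB q / T ^ (K + Q)) (by positivity) (by positivity)
    (by positivity) (by positivity) (fun n => hbA q T t n hT hu) (fun n => hbB q T (-t) n hT hu')
    (fun n hn => htA q T t n hT hu ((Nat.ceil_le).1 hn))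
    (fun n hn => htB q T (-t) n hT hu' ((Nat.ceil_le).1 hn))).trans ?_
  have hz := ZZ_nonneg
  have g : ∀ x : ℝ, |x| ≤ |la| + |lb| → T ^ ((k + 1) * x) ≤ T ^ Q := by
    intro x hx
    rw [← Real.rpow_natCast]
    refine Real.rpow_le_rpow_of_exponent_le hT1 ?_
    refine le_trans ?_ (Nat.le_ceil _)
    have : x ≤ |la| + |lb| := (le_abs_self x).trans hx
    gcongr
  have ga := g la (by have := abs_nonneg lb; linarith)
  have gb := g lb (by have := abs_nonneg la; linarith)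
  rw [pow_add]
  calc (DA q / (T ^ K * T ^ Q) * (CB q * T ^ ((k + 1) * lb)) + CA q * T ^ ((k + 1) * la) *
        (DB q / (T ^ K * T ^ Q))) * ZZ ^ 2 ≤ (DA q / (T ^ K * T ^ Q) * (CB q * T ^ Q) + CA q * T ^ Q *
        (DB q / (T ^ K * T ^ Q))) * ZZ ^ 2 := by gcongr
    _ = _ := by field_simp

/-- the off-diagonal theorem for one main swap term -/
theorem offdU (hw : WT c1 c2 w) (hc1 : 0 < c1) (hc12 : c1 ≤ c2) (hv : VV v μ)
    (hΨ : ∀ i, UF s (ξ i) (fun p => Ψ p i)) {π : Equiv.Perm (Fin k ⊕ Fin k)} (h : GV v π) {c0 : ℝ} (h1 : 0 < c0)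
    (h2 : c0 < 1 / 4)
    (hlam : lam (sA π ξ) (sA π (bv v)) < 1 ∨ lam (sB π ξ) (sB π (bv v)) < 1) :
    ∃ (C : U → ℝ) (T1 : ℝ), PG s C ∧ Real.exp 1 ≤ T1 ∧ ∀ q T, T1 ≤ T →
      ‖∫ t in (c1 * T)..(c2 * T), w (t / T) * ((∏ i, N1 (Ψ q i) (bv v i) (Real.log T) (sv v i * t)) -
        Jp (Ψ q) v c0 (Real.log T) π t)‖ ≤ C q := by
  set la : ℝ := lam (sA π ξ) (sA π (bv v)) with hla
  set lb : ℝ := lam (sB π ξ) (sB π (bv v)) with hlb
  obtain ⟨ε, a', hε, ha0, ha1, hcase⟩ : ∃ ε a' : ℝ, 0 < ε ∧ 0 ≤ a' ∧ a' < 1 ∧ (la + ε ≤ a' ∨ lb + ε ≤ a') := by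
    rcases hlam with hl | hl
    · refine ⟨(1 - la) / 2, max (la + (1 - la) / 2) 0, by linarith, le_max_right _ _, ?_,
        Or.inl (le_max_left _ _)⟩
      rw [max_lt_iff]
      constructor <;> linarith
    · refine ⟨(1 - lb) / 2, max (lb + (1 - lb) / 2) 0, by linarith, le_max_right _ _, ?_,
        Or.inr (le_max_left _ _)⟩
      rw [max_lt_iff]
      constructor <;> linarith
  have hc2 : 0 ≤ c2 := by linarith
  obtain ⟨Cw, hCw, hbw⟩ := hw.bdd
  obtain ⟨C1, T1, hC1, hT1, hb1⟩ := pNU hΨ v hc1 hc12 1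
  obtain ⟨C2, hC2, hb2⟩ := pTU hv hΨ h h1 h2 hc2 hε 1
  set pa : ℝ := max (la + ε) 0 with hpa
  set pb : ℝ := max (lb + ε) 0 with hpb
  have hpa0 : 0 ≤ pa := le_max_right _ _
  have hpb0 : 0 ≤ pb := le_max_right _ _
  set J : ℕ := ⌈((k + 1) * (pa + pb) + 1) / (1 - a')⌉₊ with hJ
  obtain ⟨C3, hC3, hb3⟩ := fin_offU hw hc1 hc12 hΨ h J
  have hcc : 0 ≤ c2 - c1 := by linarith
  refine ⟨fun q => Cw * (C1 q + C2 q) * (c2 - c1) + 4 * C3 q * 2 ^ J, max T1 (max 64 (128 / c1)), by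
    (repeat' (first
      | assumption
      | exact PG.const (by positivity)
      | (refine PG.divc ?_ (by positivity))
      | (apply PG.pow)
      | (apply PG.mul)
      | (apply PG.add)
      | (apply PG.fprod; intro _)
      | (apply PG.fsum; intro _)
      | apply_assumption)), hT1.trans (le_max_left _ _), fun q T hT => ?_⟩
  have hC1q := hC1.nn q
  have hC2q := hC2.nn q
  have hC3q := hC3.nn q
  have hTT1 : T1 ≤ T := (le_max_left _ _).trans hT
  have hTe : Real.exp 1 ≤ T := hT1.trans hTT1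
  have hT64 : 64 ≤ T := ((le_max_left _ _).trans (le_max_right _ _)).trans hT
  have hT128 : 128 ≤ c1 * T := by
    have := ((le_max_right _ _).trans (le_max_right _ _)).trans hT
    rw [div_le_iff₀ hc1] at this
    linarith
  have hT1' : 1 ≤ T := by linarith
  have hT0 : 0 < T := by linarith
  have hL : 1 ≤ Real.log T := by rwa [Real.le_log_iff_exp_le hT0]
  have hle : c1 * T ≤ c2 * T := by gcongr
  have hca : 0 ≤ c1 * T := by positivity
  obtain ⟨F, hF⟩ : ∃ F, F = Finset.range ⌈T ^ (la + ε)⌉₊ ×ˢ Finset.range ⌈T ^ (lb + ε)⌉₊ := ⟨_, rfl⟩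
  obtain ⟨g, hg⟩ : ∃ g : ℕ × ℕ → ℝ → ℂ, g = fun x t => w (t / T) *
    og (Om (sA π (Ψ q)) (sA π (bv v)) (Real.log T) t) (Om (sB π (Ψ q)) (sB π (bv v)) (Real.log T) (-t)) x := ⟨_, rfl⟩
  set R : ℝ := T ^ a' with hR
  have hR1 : 1 ≤ R := Real.one_le_rpow hT1' ha0
  have hx : ∀ x ∈ F, (x.1 : ℝ) ≤ T ^ pa ∧ (x.2 : ℝ) ≤ T ^ pb ∧ ((x.1 : ℝ) ≤ R ∨ (x.2 : ℝ) ≤ R) := by
    intro x hx
    rw [hF, Finset.mem_product, Finset.mem_range, Finset.mem_range, Nat.lt_ceil, Nat.lt_ceil] at hx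
    refine ⟨hx.1.le.trans (Real.rpow_le_rpow_of_exponent_le hT1' (le_max_left _ _)),
      hx.2.le.trans (Real.rpow_le_rpow_of_exponent_le hT1' (le_max_left _ _)), ?_⟩
    rcases hcase with hc | hc
    · exact Or.inl (hx.1.le.trans (Real.rpow_le_rpow_of_exponent_le hT1' hc))
    · exact Or.inr (hx.2.le.trans (Real.rpow_le_rpow_of_exponent_le hT1' hc))
  have hgi : ∀ x ∈ F, IntervalIntegrable (g x) volume (c1 * T) (c2 * T) := fun x hxF => by
    rw [hg]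
    exact (hb3 q (Real.log T) T R x hL hT64 hT128 (by linarith) (hx x hxF).2.2).1
  have hgb : ∀ x ∈ F, ‖∫ t in (c1 * T)..(c2 * T), g x t‖ ≤
      ((x.1 : ℝ) ^ k * (x.2 : ℝ) ^ k) * (C3 q * T * (1 / (T * (1 / (R + 1)))) ^ J) := fun x hxF => by
    rw [hg]
    exact (hb3 q (Real.log T) T R x hL hT64 hT128 (by linarith) (hx x hxF).2.2).2
  have hgs : IntervalIntegrable (fun t => ∑ x ∈ F, g x t) volume (c1 * T) (c2 * T) := by
    have := IntervalIntegrable.sum F hgi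
    refine this.congr (fun t _ => ?_)
    simp
  have hJi := Jp_tint hw hv (fun i => (hΨ i).tf q) h1 h2 hL T hca hle π
  have hNi := N1_tint hw (fun i => (hΨ i).tf q) v hL T hca hle
  have hWi : IntervalIntegrable (fun t => w (t / T) * ((∏ i, N1 (Ψ q i) (bv v i) (Real.log T) (sv v i * t)) -
        Jp (Ψ q) v c0 (Real.log T) π t)) volume (c1 * T) (c2 * T) := by
    refine (hNi.sub hJi).congr (fun t _ => ?_)
    ring
  have e1 : ∫ t in (c1 * T)..(c2 * T), w (t / T) * ((∏ i, N1 (Ψ q i) (bv v i) (Real.log T) (sv v i * t)) -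
        Jp (Ψ q) v c0 (Real.log T) π t) =
      (∫ t in (c1 * T)..(c2 * T), (w (t / T) * ((∏ i, N1 (Ψ q i) (bv v i) (Real.log T) (sv v i * t)) -
        Jp (Ψ q) v c0 (Real.log T) π t) - ∑ x ∈ F, g x t)) + ∑ x ∈ F, ∫ t in (c1 * T)..(c2 * T), g x t := by
    rw [intervalIntegral.integral_sub hWi hgs, intervalIntegral.integral_finsetSum hgi]
    ring
  rw [e1]
  refine (norm_add_le _ _).trans (add_le_add ?_ ?_)
  · have hpt : ∀ t ∈ Set.uIoc (c1 * T) (c2 * T), ‖w (t / T) * ((∏ i, N1 (Ψ q i) (bv v i) (Real.log T)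
        (sv v i * t)) - Jp (Ψ q) v c0 (Real.log T) π t) - ∑ x ∈ F, g x t‖ ≤ Cw * ((C1 q + C2 q) / T) := by
      intro t ht
      rw [Set.uIoc_of_le hle] at ht
      have ht0 : 0 ≤ t := hca.trans ht.1.le
      have q1 := hb1 q T t hTT1 ht.1.le ht.2
      have q2 := hb2 q T t hTe ht0 ht.2
      rw [pow_one] at q1 q2
      have e2 : w (t / T) * ((∏ i, N1 (Ψ q i) (bv v i) (Real.log T) (sv v i * t)) -
          Jp (Ψ q) v c0 (Real.log T) π t) - ∑ x ∈ F, g x t =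
          w (t / T) * ((∏ i, N1 (Ψ q i) (bv v i) (Real.log T) (sv v i * t) -
            ∏ i, N2 (Ψ q i) (bv v i) (1 / 8) (Real.log T) (sv v i * t)) +
          (∏ i, N2 (Ψ q i) (bv v i) (1 / 8) (Real.log T) (sv v i * t) - Jp (Ψ q) v c0 (Real.log T) π t -
            ∑ x ∈ F, og (Om (sA π (Ψ q)) (sA π (bv v)) (Real.log T) t)
              (Om (sB π (Ψ q)) (sB π (bv v)) (Real.log T) (-t)) x)) := by
        rw [hg]
        simp only
        rw [← Finset.mul_sum]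
        ring
      rw [e2, norm_mul]
      rw [← hF] at q2
      have q3 := hbw (t / T)
      have q4 := (norm_add_le (∏ i, N1 (Ψ q i) (bv v i) (Real.log T) (sv v i * t) -
            ∏ i, N2 (Ψ q i) (bv v i) (1 / 8) (Real.log T) (sv v i * t))
          (∏ i, N2 (Ψ q i) (bv v i) (1 / 8) (Real.log T) (sv v i * t) - Jp (Ψ q) v c0 (Real.log T) π t -
            ∑ x ∈ F, og (Om (sA π (Ψ q)) (sA π (bv v)) (Real.log T) t)
              (Om (sB π (Ψ q)) (sB π (bv v)) (Real.log T) (-t)) x)).trans (add_le_add q1 q2)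
      rw [← add_div] at q4
      gcongr
    refine (intervalIntegral.norm_integral_le_of_norm_le_const hpt).trans (le_of_eq ?_)
    rw [abs_of_nonneg (by linarith)]
    field_simp
  · obtain ⟨X, hX⟩ : ∃ X : ℝ, X = T ^ pa * T ^ pb := ⟨_, rfl⟩
    have hX0 : 0 ≤ X := by rw [hX]; positivity
    have hXe : X = T ^ (pa + pb) := by rw [hX, Real.rpow_add hT0]
    have hq : (1 / (T * (1 / (R + 1)))) ≤ 2 * T ^ (-(1 - a')) := by
      have : 1 / (T * (1 / (R + 1))) = (R + 1) / T := by field_simp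
      rw [this, div_le_iff₀ hT0]
      have e3 : T ^ (-(1 - a')) * T = R := by
        rw [hR]
        nth_rewrite 2 [← Real.rpow_one T]
        rw [← Real.rpow_add hT0]
        congr 1; ring
      rw [mul_assoc, e3]
      linarith
    have hRp : 0 < R + 1 := by linarith
    have hterm : ∀ x ∈ F, ‖∫ t in (c1 * T)..(c2 * T), g x t‖ ≤
        X ^ k * (C3 q * T * (2 * T ^ (-(1 - a'))) ^ J) := by
      intro x hxF
      refine (hgb x hxF).trans ?_
      have q1 := (hx x hxF).1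
      have q2 := (hx x hxF).2.1
      have q3 : (x.1 : ℝ) ^ k * (x.2 : ℝ) ^ k ≤ X ^ k := by
        rw [← mul_pow, hX]
        gcongr
      have q4 : 0 ≤ 1 / (T * (1 / (R + 1))) := by positivity
      gcongr
    refine (norm_sum_le_of_le _ hterm).trans ?_
    rw [Finset.sum_const, nsmul_eq_mul]
    have hcard : (F.card : ℝ) ≤ 4 * X := by
      rw [hF, Finset.card_product, Finset.card_range, Finset.card_range]
      push_cast
      have g1 : ∀ q : ℝ, ((⌈T ^ (q + ε)⌉₊ : ℕ) : ℝ) ≤ 2 * T ^ (max (q + ε) 0) := by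
        intro q
        have h3 := (Nat.ceil_lt_add_one (by positivity : 0 ≤ T ^ (q + ε))).le
        have h4 : T ^ (q + ε) ≤ T ^ (max (q + ε) 0) :=
          Real.rpow_le_rpow_of_exponent_le hT1' (le_max_left _ _)
        have h5 : 1 ≤ T ^ (max (q + ε) 0) := Real.one_le_rpow hT1' (le_max_right _ _)
        linarith
      have g2 := g1 la
      have g3 := g1 lb
      calc _ ≤ (2 * T ^ pa) * (2 * T ^ pb) := by gcongr
        _ = _ := by rw [hX]; ring
    have hexp : X * X ^ k * T * (T ^ (-(1 - a'))) ^ J ≤ 1 := by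
      have e4 : X * X ^ k * T * (T ^ (-(1 - a'))) ^ J =
          T ^ ((pa + pb) * (k + 1) + 1 + -(1 - a') * J) := by
        rw [hXe, ← pow_succ', ← Real.rpow_natCast (T ^ (pa + pb)), ← Real.rpow_mul hT0.le,
          ← Real.rpow_natCast (T ^ (-(1 - a'))), ← Real.rpow_mul hT0.le, Real.rpow_add hT0,
          Real.rpow_add hT0, Real.rpow_one]
        push_cast; ring
      rw [e4]
      refine Real.rpow_le_one_of_one_le_of_nonpos hT1' ?_
      have h6 : 0 < 1 - a' := by linarith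
      have h7 : ((k + 1) * (pa + pb) + 1) / (1 - a') ≤ J := Nat.le_ceil _
      rw [div_le_iff₀ h6] at h7
      nlinarith
    calc (F.card : ℝ) * (X ^ k * (C3 q * T * (2 * T ^ (-(1 - a'))) ^ J)) ≤
        (4 * X) * (X ^ k * (C3 q * T * (2 * T ^ (-(1 - a'))) ^ J)) := by gcongr
      _ = 4 * C3 q * 2 ^ J * (X * X ^ k * T * (T ^ (-(1 - a'))) ^ J) := by rw [mul_pow]; ring
      _ ≤ 4 * C3 q * 2 ^ J * 1 := by gcongr
      _ = _ := by ring

end

end Pool.Agent.TH612.MU
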