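import Pool.Agent.TH612.MU.U5

set_option autoImplicit false

/-! Families of test functions: assembly. -/

namespace Pool.Agent.TH612.MU

open Complex Filter Topology MeasureTheory Set
open scoped ContDiff ComplexConjugate
open Pool.Agent.W182.KO hiding ee SS_summable
open Pool.Agent.TH612.CF Pool.Agent.TH612.MD

noncomputable section

variable {U : Type*} {s : U → ℝ} {k : ℕ} {v : Fin k ⊕ Fin k → ℝ} {μ : ℝ} {ξ : Fin k ⊕ Fin k → ℝ}
  {Ψ : U → Fin k ⊕ Fin k → ℝ → ℂ} {c1 c2 : ℝ} {w : ℝ → ℂ}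

/-- the integral of one swap term -/
lemma Jp_OU (hw : WT c1 c2 w) (hc1 : 0 < c1) (hc12 : c1 ≤ c2) (hv : VV v μ)
    (hΨ : ∀ i, UF s (ξ i) (fun p => Ψ p i))
    {c0 : ℝ} (h1 : 0 < c0) (h2 : c0 < 1 / 4) (π : Equiv.Perm (Fin k ⊕ Fin k)) :
    ∃ C : U → ℝ, PG s C ∧ ∀ q (T : ℝ), Real.exp 1 ≤ T →
      ‖∫ t in (c1 * T)..(c2 * T), w (t / T) * Jp (Ψ q) v c0 (Real.log T) π t‖ ≤
        C q * T ^ (1 + c0 * ((∑ i, ξ i * |v i|) + ee v π)) := by
  obtain ⟨C, hC, hb⟩ := Jp_normU hv hΨ h1 h2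
  obtain ⟨Cw, hCw, hbw⟩ := hw.bdd
  have hc2 : 0 < c2 := by linarith
  set S : ℝ := ∑ i, ξ i * |v i| with hS
  set r : ℝ := ee v π * c0 with hr
  set D : ℝ := (1 + c2) ^ r + c1 ^ r with hD
  have hD0 : 0 ≤ D := by positivity
  have hcc : 0 ≤ c2 - c1 := by linarith
  refine ⟨fun q => Cw * (C q * D) * (c2 - c1), by (repeat' (first
      | assumption
      | exact PG.const (by positivity)
      | (refine PG.divc ?_ (by positivity))
      | (apply PG.pow)
      | (apply PG.mul)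
      | (apply PG.add)
      | (apply PG.fprod; intro _)
      | (apply PG.fsum; intro _)
      | apply_assumption)), fun q T hT => ?_⟩
  have hCq := hC.nn q
  have hT1 : 1 ≤ T := by have := Real.add_one_le_exp 1; linarith
  have hT0 : 0 < T := by linarith
  have hL : 1 ≤ Real.log T := by rwa [Real.le_log_iff_exp_le hT0]
  have hle : c1 * T ≤ c2 * T := by gcongr
  have hcT : 0 < c1 * T := by positivity
  have e1 : Real.exp (Real.log T * c0 * S) = T ^ (c0 * S) := by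
    rw [Real.rpow_def_of_pos hT0]; congr 1; ring
  have hpt : ∀ t ∈ Set.uIoc (c1 * T) (c2 * T), ‖w (t / T) * Jp (Ψ q) v c0 (Real.log T) π t‖ ≤
      Cw * (C q * (T ^ (c0 * S) * (D * T ^ r))) := by
    intro t ht
    rw [Set.uIoc_of_le hle] at ht
    have ht0 : 0 ≤ t := hcT.le.trans ht.1.le
    have g1 := hb q π (Real.log T) t hL ht0
    rw [e1] at g1
    have g2 : (1 + t) ^ r ≤ D * T ^ r := by
      rcases le_total 0 r with h0 | h0
      · calc (1 + t) ^ r ≤ ((1 + c2) * T) ^ r := by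
              refine Real.rpow_le_rpow (by linarith) ?_ h0
              nlinarith [ht.2]
          _ = (1 + c2) ^ r * T ^ r := Real.mul_rpow (by linarith) hT0.le
          _ ≤ D * T ^ r := by
              have : (1 + c2) ^ r ≤ D := by
                have : 0 ≤ c1 ^ r := by positivity
                linarith
              gcongr
      · calc (1 + t) ^ r ≤ (c1 * T) ^ r :=
              Real.rpow_le_rpow_of_nonpos hcT (by linarith [ht.1]) h0
          _ = c1 ^ r * T ^ r := Real.mul_rpow hc1.le hT0.le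
          _ ≤ D * T ^ r := by
              have : c1 ^ r ≤ D := by
                have : 0 ≤ (1 + c2) ^ r := by positivity
                linarith
              gcongr
    rw [norm_mul]
    have g3 := hbw (t / T)
    have g4 := g1.trans (by gcongr : C q * (T ^ (c0 * S) * (1 + t) ^ r) ≤ C q * (T ^ (c0 * S) * (D * T ^ r)))
    gcongr
  refine (intervalIntegral.norm_integral_le_of_norm_le_const hpt).trans (le_of_eq ?_)
  rw [abs_of_nonneg (by linarith)]
  have e2 : T ^ (1 + c0 * (S + ee v π)) = T * (T ^ (c0 * S) * T ^ r) := by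
    rw [← Real.rpow_add hT0, Real.rpow_add hT0 1, Real.rpow_one, hr]
    congr 2; ring
  rw [e2]
  ring

/-- the average with the smooth weight -/
theorem cenU (hw : WT c1 c2 w) (hc1 : 0 < c1) (hc12 : c1 ≤ c2) (hv : VV v μ)
    (hΨ : ∀ i, UF s (ξ i) (fun p => Ψ p i)) {c0 : ℝ} (h1 : 0 < c0) (h2 : c0 < 1 / 4) {E : ℝ} (hE0 : 0 ≤ E)
    (hE : ∀ π, ¬ GV v π → 1 + c0 * ((∑ i, ξ i * |v i|) + ee v π) ≤ E)
    (hg : ∀ π, GV v π → lam (sA π ξ) (sA π (bv v)) < 1 ∨ lam (sB π ξ) (sB π (bv v)) < 1)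
    [DecidablePred (GV v)] (hcard : (Finset.univ.filter (GV v)).card = (Nat.factorial k) ^ 2) :
    ∃ (C : U → ℝ) (T1 : ℝ), PG s C ∧ Real.exp 1 ≤ T1 ∧ ∀ q (T : ℝ), T1 ≤ T →
      ‖(∫ t in (c1 * T)..(c2 * T), w (t / T) * ∏ i, N1 (Ψ q i) (bv v i) (Real.log T) (sv v i * t)) -
        ((Nat.factorial k : ℂ) ^ 2)⁻¹ * ∫ t in (c1 * T)..(c2 * T), w (t / T) *
          ∫ y, gQ (Ψ q) (sv v) v (Real.log T) t y (1 / 2)‖ ≤ C q * T ^ E := by
  have hterm : ∀ π : Equiv.Perm (Fin k ⊕ Fin k), ∃ (C : U → ℝ) (T1 : ℝ), PG s C ∧ ∀ q (T : ℝ), T1 ≤ T → Real.exp 1 ≤ T →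
      ‖∫ t in (c1 * T)..(c2 * T), (w (t / T) * ((if GV v π then
        ∏ i, N1 (Ψ q i) (bv v i) (Real.log T) (sv v i * t) else 0) - Jp (Ψ q) v c0 (Real.log T) π t))‖ ≤
        C q * T ^ E := by
    intro π
    by_cases hπ : GV v π
    · obtain ⟨C, T1, hC, hT1, hb⟩ := offdU hw hc1 hc12 hv hΨ hπ h1 h2 (hg π hπ)
      refine ⟨C, T1, hC, fun q T hT hTe => ?_⟩
      have hCq := hC.nn q
      simp only [if_pos hπ]
      have hT1 : 1 ≤ T := by have := Real.add_one_le_exp 1; linarith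
      have : 1 ≤ T ^ E := Real.one_le_rpow hT1 hE0
      refine (hb q T hT).trans ?_
      nlinarith
    · obtain ⟨C, hC, hb⟩ := Jp_OU hw hc1 hc12 hv hΨ h1 h2 π
      refine ⟨C, 0, hC, fun q T _ hTe => ?_⟩
      have hCq := hC.nn q
      simp only [if_neg hπ, zero_sub, mul_neg, intervalIntegral.integral_neg, norm_neg]
      have hT1 : 1 ≤ T := by have := Real.add_one_le_exp 1; linarith
      refine (hb q T hTe).trans ?_
      have := Real.rpow_le_rpow_of_exponent_le hT1 (hE π hπ)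
      gcongr
  choose C T1 hC hb using hterm
  refine ⟨fun q => ∑ π, C π q, Real.exp 1 + ∑ π, |T1 π|, by (repeat' (first
      | assumption
      | exact PG.const (by positivity)
      | (refine PG.divc ?_ (by positivity))
      | (apply PG.pow)
      | (apply PG.mul)
      | (apply PG.add)
      | (apply PG.fprod; intro _)
      | (apply PG.fsum; intro _)
      | apply_assumption)), ?_, fun q T hT => ?_⟩
  · have : 0 ≤ ∑ π, |T1 π| := Finset.sum_nonneg fun _ _ => abs_nonneg _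
    linarith
  have hTs : 0 ≤ ∑ π, |T1 π| := Finset.sum_nonneg fun _ _ => abs_nonneg _
  have hTe : Real.exp 1 ≤ T := by linarith
  have hTπ : ∀ π, T1 π ≤ T := fun π => by
    have := Finset.single_le_sum (f := fun π => |T1 π|) (fun π _ => abs_nonneg _) (Finset.mem_univ π)
    have h3 := le_abs_self (T1 π)
    have h4 := Real.exp_pos 1
    linarith
  have hT1 : 1 ≤ T := by have := Real.add_one_le_exp 1; linarith
  have hT0 : 0 < T := by linarith
  have hL : 1 ≤ Real.log T := by rwa [Real.le_log_iff_exp_le hT0]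
  have hle : c1 * T ≤ c2 * T := by gcongr
  have hca : 0 ≤ c1 * T := by positivity
  have hNi := N1_tint hw (fun i => (hΨ i).tf q) v hL T hca hle
  have hJi := fun π => Jp_tint hw hv (fun i => (hΨ i).tf q) h1 h2 hL T hca hle π
  obtain ⟨N, hN⟩ : ∃ N : ℝ → ℂ, N = fun t => ∏ i, N1 (Ψ q i) (bv v i) (Real.log T) (sv v i * t) := ⟨_, rfl⟩
  have hNi' : IntervalIntegrable (fun t => w (t / T) * N t) volume (c1 * T) (c2 * T) := by
    rw [hN]; exact hNi
  have e1 : ∫ t in (c1 * T)..(c2 * T), w (t / T) * ∫ y, gQ (Ψ q) (sv v) v (Real.log T) t y (1 / 2) =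
      ∑ π, ∫ t in (c1 * T)..(c2 * T), w (t / T) * Jp (Ψ q) v c0 (Real.log T) π t := by
    rw [← intervalIntegral.integral_finsetSum fun π _ => hJi π]
    refine intervalIntegral.integral_congr fun t ht => ?_
    rw [uIcc_of_le hle] at ht
    rw [Q_avg hv (fun i => (hΨ i).tf q) h1 h2 hL (hca.trans ht.1), Finset.mul_sum]
  have hk : ((Nat.factorial k : ℂ) ^ 2) ≠ 0 := by
    have : (Nat.factorial k : ℂ) ≠ 0 := by exact_mod_cast Nat.factorial_ne_zero k
    positivity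
  have e2 : ∀ π, ∫ t in (c1 * T)..(c2 * T), (w (t / T) * ((if GV v π then
        ∏ i, N1 (Ψ q i) (bv v i) (Real.log T) (sv v i * t) else 0) - Jp (Ψ q) v c0 (Real.log T) π t)) =
      (if GV v π then (∫ t in (c1 * T)..(c2 * T), w (t / T) * N t) else 0) -
        ∫ t in (c1 * T)..(c2 * T), w (t / T) * Jp (Ψ q) v c0 (Real.log T) π t := by
    intro π
    split_ifs
    · rw [← intervalIntegral.integral_sub hNi' (hJi π)]
      congr 1; funext t
      rw [hN]
      ring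
    · simp only [zero_sub, mul_neg, intervalIntegral.integral_neg]
  have e3 : (∫ t in (c1 * T)..(c2 * T), w (t / T) * ∏ i, N1 (Ψ q i) (bv v i) (Real.log T) (sv v i * t)) -
        ((Nat.factorial k : ℂ) ^ 2)⁻¹ * ∫ t in (c1 * T)..(c2 * T), w (t / T) *
          ∫ y, gQ (Ψ q) (sv v) v (Real.log T) t y (1 / 2) =
      ((Nat.factorial k : ℂ) ^ 2)⁻¹ * ∑ π, ∫ t in (c1 * T)..(c2 * T), (w (t / T) * ((if GV v π then
        ∏ i, N1 (Ψ q i) (bv v i) (Real.log T) (sv v i * t) else 0) - Jp (Ψ q) v c0 (Real.log T) π t)) := by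
    simp only [e2]
    rw [Finset.sum_sub_distrib, ← Finset.sum_filter, Finset.sum_const, hcard, e1, hN]
    rw [nsmul_eq_mul, Nat.cast_pow, mul_sub, ← mul_assoc, inv_mul_cancel₀ hk, one_mul]
  rw [e3, norm_mul]
  have e4 : ‖((Nat.factorial k : ℂ) ^ 2)⁻¹‖ ≤ 1 := by
    rw [norm_inv, norm_pow, Complex.norm_natCast]
    apply inv_le_one_of_one_le₀
    apply one_le_pow₀
    exact_mod_cast Nat.factorial_pos k
  calc _ ≤ 1 * ∑ π, (C π q * T ^ E) := by
        refine mul_le_mul e4 ?_ (norm_nonneg _) zero_le_one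
        exact norm_sum_le_of_le _ fun π _ => hb π q T (hTπ π) hTe
    _ = _ := by rw [one_mul, Finset.sum_mul]

theorem main_thmU {A : Finset (Fin k ⊕ Fin k)} (hA : A.card = k) (b : Bool) {ℓ : Fin k ⊕ Fin k → ℝ}
    (hℓ : ∀ i, 0 ≤ ℓ i) (hs : sd A b ℓ < 1) {ψ : U → Fin k ⊕ Fin k → ℝ → ℂ}
    (hψ : ∀ i, UF s (ℓ i - fb (fA A i)) (fun p x => ψ p i (sgA A i * x)))
    (hw : WT c1 c2 w) (hc1 : 0 < c1) (hc12 : c1 ≤ c2) (δ : ℝ) (hδ : 0 < δ) :
    ∃ (C : U → ℝ) (T1 : ℝ), PG s C ∧ Real.exp 1 ≤ T1 ∧ ∀ q (T : ℝ), T1 ≤ T →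
      ‖∫ y, WW w (ψ q) T y‖ ≤ C q * T ^ (1 - (1 - sd A b ℓ) / 4 + δ) := by
  classical
  have hT' : ∀ T : ℝ, Real.exp 1 ≤ T → 0 < T ∧ 1 ≤ Real.log T ∧ 0 ≤ c1 * T ∧ c1 * T ≤ c2 * T := by
    intro T hT
    have hT1 : 1 ≤ T := by have := Real.add_one_le_exp 1; linarith
    have hT0 : 0 < T := by linarith
    exact ⟨hT0, by rwa [Real.le_log_iff_exp_le hT0], by positivity, by gcongr⟩
  set a : ℝ := sd A b ℓ with ha
  have ha0 : 0 ≤ a := by
    rw [ha]; unfold sd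
    refine Finset.sum_nonneg fun i _ => ?_
    split_ifs
    · exact hℓ i
    · exact le_rfl
  set S : ℝ := ∑ i, ℓ i with hS
  have hS0 : 0 ≤ S := Finset.sum_nonneg fun i _ => hℓ i
  obtain ⟨ε, hε0, hε1, hε2⟩ : ∃ ε : ℝ, 0 < ε ∧ ε ≤ 1 / 2 ∧ ε * (1 + S) ≤ δ := by
    refine ⟨min (1 / 2) (δ / (1 + S)), by positivity, min_le_left _ _, ?_⟩
    have := min_le_right (1 / 2) (δ / (1 + S))
    calc _ ≤ δ / (1 + S) * (1 + S) := by gcongr
      _ = δ := by field_simp
  obtain ⟨m, hm0, hm1, hm2⟩ : ∃ m : ℝ, 0 < m ∧ m ≤ 1 / 8 ∧ m ≤ δ / 2 :=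
    ⟨min (1 / 8) (δ / 2), by positivity, min_le_left _ _, min_le_right _ _⟩
  have hv := dv_VV A b hε0 hε1
  have hbv : bv (dv A b ε) = fA A := bv_dv hε0 hε1
  obtain ⟨C, T1, hC, hT1, hb⟩ := cenU (c0 := 1 / 4 - m) (E := 1 - (1 - a) / 4 + δ)
    (Ψ := fun p i x => ψ p i (sgA A i * x)) hw hc1 hc12 hv hψ
    (by linarith) (by linarith) (by linarith) (fun π hπ => by
      have g := bad_exp hA hε0 hε1 hπ hℓ (ξ := fun i => ℓ i - fb (fA A i)) (fun i => by rw [hbv])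
      rw [← ha, ← hS] at g
      have h3 : (1 / 4 - m) * ((∑ i, (ℓ i - fb (fA A i)) * |dv A b ε i|) + ee (dv A b ε) π) ≤
          (1 / 4 - m) * (a - 1 + δ) := by
        refine mul_le_mul_of_nonneg_left ?_ (by linarith)
        linarith
      nlinarith) (fun π hπ => by
      have hπ' := (GV_iff hε0 hε1 π).1 hπ
      rw [hbv, lam_A hπ', lam_B hπ']
      cases b
      · exact Or.inr hs
      · exact Or.inl hs) (card_GV hA hε0 hε1)
  refine ⟨C, T1, hC, hT1, fun q T hT => ?_⟩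
  have hTe := hT1.trans hT
  obtain ⟨hT0, hL, hca, hle⟩ := hT' T hTe
  have e := (HH_fub hw hv (fun i => (hψ i).tf q) hL T hca hle).2
  simp only [fun y => WW_eq (A := A) (b := b) hw hc1 hc12 hε0 hε1 (ψ := ψ q) hT0 y]
  rw [e]
  exact hb q T hT

end

end Pool.Agent.TH612.MU
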