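import Pool.Agent.TH612.MU.U6
import Mathlib.Analysis.Distribution.SchwartzSpace.Fourier

set_option autoImplicit false

/-! Modulated families and Fourier inversion. -/

namespace Pool.Agent.TH612.MU

open Complex Filter Topology MeasureTheory Set
open scoped ContDiff ComplexConjugate FourierTransform RealInnerProductSpace
open Pool.Agent.W182.KO hiding ee SS_summable
open Pool.Agent.TH612.CF Pool.Agent.TH612.MD

noncomputable section

lemma P_mod (ψ : ℝ → ℂ) (a : ℝ) (z : ℂ) : P (fun x => ψ x * exp (I * a * x)) z = P ψ (z + I * a) := by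
  unfold P
  congr 1; funext x
  rw [mul_assoc, ← Complex.exp_add]
  congr 2; ring

/-- modulated families -/
lemma modUF {U : Type*} {s : U → ℝ} {ξ1 : ℝ} {ψ : ℝ → ℂ} (h : TF ξ1 ψ) {a : U → ℝ} (ha : ∀ u, |a u| ≤ |s u|) :
    UF s ξ1 (fun u x => ψ x * exp (I * a u * x)) := by
  refine ⟨fun u => ⟨?_, ?_, ?_⟩, fun N => ?_⟩
  · refine h.cd.mul ?_
    have h1 : ContDiff ℝ ∞ fun x : ℝ => I * a u * (x : ℂ) :=
      contDiff_const.mul Complex.ofRealCLM.contDiff
    exact h1.cexp
  · exact h.cs.mul_right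
  · intro ξ hξ
    simp only [h.sp ξ hξ, zero_mul]
  · obtain ⟨C, hC, hb⟩ := P_bound h N
    refine ⟨fun u => C * (1 + |s u|) ^ N, ?_, fun u z hz => ?_⟩
    · refine ⟨fun u => by positivity, C, N, hC, fun u => le_rfl⟩
    · rw [P_mod]
      have e0 : (z + I * a u).re = z.re := by simp
      have h1 := hb (z + I * a u) (by rw [e0]; exact hz)
      rw [e0] at h1
      have h2 : 1 + ‖z‖ ≤ (1 + ‖z + I * a u‖) * (1 + |s u|) := by
        have h3 : ‖z‖ ≤ ‖z + I * a u‖ + |a u| := by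
          have h4 := norm_sub_le (z + I * a u) (I * a u)
          rw [add_sub_cancel_right] at h4
          have h5 : ‖I * (a u : ℂ)‖ = |a u| := by
            rw [norm_mul, norm_I, one_mul, Complex.norm_real, Real.norm_eq_abs]
          rw [h5] at h4
          exact h4
        have := ha u
        have := norm_nonneg (z + I * a u)
        have := abs_nonneg (s u)
        nlinarith
      calc ‖P ψ (z + I * a u)‖ * (1 + ‖z‖) ^ N ≤
          ‖P ψ (z + I * a u)‖ * ((1 + ‖z + I * a u‖) * (1 + |s u|)) ^ N := by gcongr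
        _ = (‖P ψ (z + I * a u)‖ * (1 + ‖z + I * a u‖) ^ N) * (1 + |s u|) ^ N := by
            rw [mul_pow]; ring
        _ ≤ (C * Real.exp (ξ1 * z.re)) * (1 + |s u|) ^ N := by gcongr
        _ = _ := by ring

section

variable {ι : Type*} [Fintype ι]

/-- size of a vector -/
def sz (x : ι → ℝ) : ℝ := ∑ i, |x i|

lemma sz_nonneg (x : ι → ℝ) : 0 ≤ sz x := Finset.sum_nonneg fun i _ => abs_nonneg _

lemma le_sz (x : ι → ℝ) (i : ι) : |x i| ≤ |sz x| := by
  rw [abs_of_nonneg (sz_nonneg x)]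
  exact Finset.single_le_sum (f := fun i => |x i|) (fun j _ => abs_nonneg _) (Finset.mem_univ i)

lemma sz_le_norm (v : EuclideanSpace ℝ ι) : sz (fun i => v i) ≤ Fintype.card ι * ‖v‖ := by
  unfold sz
  calc _ ≤ ∑ _i : ι, ‖v‖ := Finset.sum_le_sum fun i _ => by
        have := PiLp.norm_apply_le v i
        rwa [Real.norm_eq_abs] at this
    _ = _ := by rw [Finset.sum_const, Finset.card_univ, nsmul_eq_mul]

/-- Fourier inversion -/
theorem inv_F {Φ : (ι → ℝ) → ℂ} (hΦ : ContDiff ℝ ∞ Φ) (hc : HasCompactSupport Φ) :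
    ∃ F : (ι → ℝ) → ℂ, Continuous F ∧ (∀ N : ℕ, ∃ C : ℝ, 0 ≤ C ∧ ∀ η, ‖F η‖ * (1 + sz η) ^ N ≤ C) ∧
      ∀ x, Φ x = ∫ η, F η * exp (2 * Real.pi * (∑ i, η i * x i : ℝ) * I) := by
  set e := PiLp.continuousLinearEquiv 2 ℝ (fun _ : ι => ℝ) with he
  set f : EuclideanSpace ℝ ι → ℂ := fun v => Φ (e v) with hf
  have hf1 : ContDiff ℝ ∞ f := hΦ.comp e.contDiff
  have hf2 : HasCompactSupport f := hc.comp_homeomorph e.toHomeomorph
  set S : SchwartzMap (EuclideanSpace ℝ ι) ℂ := hf2.toSchwartzMap hf1 with hS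
  set G : SchwartzMap (EuclideanSpace ℝ ι) ℂ := 𝓕 S with hG
  refine ⟨fun η => G (e.symm η), G.continuous.comp e.symm.continuous, fun N => ?_, fun x => ?_⟩
  · have hdec := SchwartzMap.one_add_le_sup_seminorm_apply (𝕜 := ℝ) (m := (N, 0)) (k := N) (n := 0)
      le_rfl le_rfl G
    set C0 := 2 ^ (N, 0).1 * ((Finset.Iic (N, 0)).sup fun m => SchwartzMap.seminorm ℝ m.1 m.2) G with hC0
    have hC0n : 0 ≤ C0 := by
      have := hdec (0 : EuclideanSpace ℝ ι)
      refine le_trans ?_ this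
      positivity
    refine ⟨C0 * (1 + Fintype.card ι) ^ N, by positivity, fun η => ?_⟩
    have h1 := hdec (e.symm η)
    rw [norm_iteratedFDeriv_zero] at h1
    have h2 := sz_le_norm (e.symm η)
    have h3 : (fun i => (e.symm η) i) = η := rfl
    rw [h3] at h2
    have h4 : 1 + sz η ≤ (1 + ‖e.symm η‖) * (1 + Fintype.card ι) := by
      have := norm_nonneg (e.symm η)
      have : (0:ℝ) ≤ Fintype.card ι := Nat.cast_nonneg _
      nlinarith
    have h5 := sz_nonneg η
    calc ‖G (e.symm η)‖ * (1 + sz η) ^ N ≤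
        ‖G (e.symm η)‖ * ((1 + ‖e.symm η‖) * (1 + Fintype.card ι)) ^ N := by gcongr
      _ = ((1 + ‖e.symm η‖) ^ N * ‖G (e.symm η)‖) * (1 + Fintype.card ι) ^ N := by
          rw [mul_pow]; ring
      _ ≤ C0 * (1 + Fintype.card ι) ^ N := by gcongr
  · have h1 : 𝓕⁻ G = S := by rw [hG]; exact FourierTransform.fourierInv_fourier_eq S
    have h2 : Φ x = S (e.symm x) := by
      rw [hS]
      simp [hf]
    rw [h2, ← h1, SchwartzMap.fourierInv_coe, Real.fourierInv_eq']
    have h3 := (PiLp.volume_preserving_toLp ι).integral_comp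
      (MeasurableEquiv.toLp 2 (ι → ℝ)).measurableEmbedding
      (fun v : EuclideanSpace ℝ ι => exp ((2 * Real.pi * ⟪v, e.symm x⟫ : ℝ) * I) • G v)
    rw [← h3]
    congr 1; funext η
    rw [smul_eq_mul, mul_comm]
    congr 2
    have h4 : ⟪(WithLp.toLp 2 η : EuclideanSpace ℝ ι), e.symm x⟫ = ∑ i, η i * x i := by
      rw [PiLp.inner_apply]
      refine Finset.sum_congr rfl fun i _ => ?_
      simp [mul_comm]
      exact mul_comm _ _
    rw [h4]
    push_cast; ring

end

end

end Pool.Agent.TH612.MU
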