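import Pool.Agent.TH612.MU.U7

set_option autoImplicit false

/-! The averaged difference as a function of the shifts. -/

namespace Pool.Agent.TH612.MU

open Complex Filter Topology MeasureTheory Set
open scoped ContDiff ComplexConjugate
open Pool.Agent.W182.KO hiding ee SS_summable
open Pool.Agent.TH612.CF Pool.Agent.TH612.MD

noncomputable section

variable {k : ℕ} {c1 c2 : ℝ} {w : ℝ → ℂ}

/-- the integrand in `t` -/
def dt (w : ℝ → ℂ) (T t : ℝ) (y : Fin k ⊕ Fin k → ℝ) : ℂ :=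
  w (t / T) * (Zg y t - ((Nat.factorial k : ℂ) ^ 2)⁻¹ * Qs t (fun i => (y i : ℂ)))

/-- the difference averaged in `t` -/
def DT (w : ℝ → ℂ) (T : ℝ) (y : Fin k ⊕ Fin k → ℝ) : ℂ := ∫ t in Ioi (0:ℝ), dt w T t y

lemma WW_DT (w : ℝ → ℂ) (ψ : Fin k ⊕ Fin k → ℝ → ℂ) (T : ℝ) (y : Fin k ⊕ Fin k → ℝ) :
    WW w ψ T y = (∏ i, P (ψ i) (Real.log T * y i * I)) * DT w T y := rfl

lemma DT_eq (hw : WT c1 c2 w) (hc1 : 0 < c1) {T : ℝ} (hT : 0 < T) (y : Fin k ⊕ Fin k → ℝ) :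
    DT w T y = ∫ t in Ioc (c1 * T) (c2 * T), dt w T t y := by
  unfold DT
  refine setIntegral_eq_of_subset_of_forall_sdiff_eq_zero measurableSet_Ioi ?_ ?_
  · intro t ht
    have : 0 < c1 * T := by positivity
    exact this.trans ht.1
  · intro t ht
    have hz : w (t / T) = 0 := by
      have h2 := ht.2
      rw [mem_Ioc, not_and_or, not_lt, not_le] at h2
      rcases h2 with h2 | h2
      · exact hw.z1 _ (by rw [div_le_iff₀ hT]; exact h2)
      · exact hw.z2 _ (by rw [le_div_iff₀ hT]; exact h2.le)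
    unfold dt
    rw [hz, zero_mul]

lemma Zg_cont : Continuous fun p : ℝ × (Fin k ⊕ Fin k → ℝ) => Zg p.2 p.1 := by
  have e : (fun p : ℝ × (Fin k ⊕ Fin k → ℝ) => Zg p.2 p.1) = fun p =>
      ∏ i, Ff (fA ∅ i) (1 / 2 + ((sgA ∅ i * p.2 i + sgA ∅ i * p.1 : ℝ) : ℂ) * I) := by
    funext p
    exact Zg_Ff ∅ p.2 p.1
  rw [e]
  refine continuous_finsetProd _ fun i _ => ?_
  obtain ⟨C, M, hC, hc, hb⟩ := Ff_line (fA (∅ : Finset (Fin k ⊕ Fin k)) i)
  have h1 : Continuous fun p : ℝ × (Fin k ⊕ Fin k → ℝ) => sgA ∅ i * p.2 i + sgA ∅ i * p.1 := by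
    have : Continuous fun p : ℝ × (Fin k ⊕ Fin k → ℝ) => p.2 i := (continuous_apply i).comp continuous_snd
    fun_prop
  exact hc.comp h1

lemma Zg_bd : ∃ (C : ℝ) (M : ℕ), 0 ≤ C ∧ ∀ (y : Fin k ⊕ Fin k → ℝ) (t : ℝ), 0 ≤ t →
    ‖Zg y t‖ ≤ C * (1 + t) ^ M * YY y ^ M := by
  have hF := fun i => Ff_line (fA (∅ : Finset (Fin k ⊕ Fin k)) i)
  choose C M hC hc hb using hF
  refine ⟨∏ i, C i, ∑ i, M i, Finset.prod_nonneg fun i _ => hC i, fun y t ht => ?_⟩
  rw [Zg_Ff ∅ y t, norm_prod]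
  have hY := YY_one y
  have h1 : ∀ i, ‖Ff (fA ∅ i) (1 / 2 + ((sgA ∅ i * y i + sgA ∅ i * t : ℝ) : ℂ) * I)‖ ≤
      C i * ((1 + t) ^ M i * YY y ^ M i) := fun i => by
    refine (hb i _).trans ?_
    have e : |sgA ∅ i * y i + sgA ∅ i * t| = |y i + t| := by
      rw [← mul_add, abs_mul]
      rcases sgA_pm ∅ i with h | h <;> rw [h] <;> simp
    rw [e]
    have h2 := abs_peetre (y i) t
    rw [abs_of_nonneg ht] at h2
    have h3 := le_YY y i
    have := hC i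
    calc C i * (1 + |y i + t|) ^ M i ≤ C i * ((1 + |y i|) * (1 + t)) ^ M i := by gcongr
      _ ≤ C i * (YY y * (1 + t)) ^ M i := by gcongr
      _ = _ := by rw [mul_pow]; ring
  refine (Finset.prod_le_prod (fun _ _ => norm_nonneg _) fun i _ => h1 i).trans (le_of_eq ?_)
  rw [Finset.prod_mul_distrib, Finset.prod_mul_distrib, Finset.prod_pow_eq_pow_sum,
    Finset.prod_pow_eq_pow_sum]
  ring

lemma dt_meas (hw : WT c1 c2 w) (T : ℝ) : AEStronglyMeasurable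
    (fun p : ℝ × (Fin k ⊕ Fin k → ℝ) => dt w T p.1 p.2) (volume.prod volume) := by
  have hv := dv_VV (∅ : Finset (Fin k ⊕ Fin k)) true (ε := 1 / 2) (by norm_num) le_rfl
  set v := dv (∅ : Finset (Fin k ⊕ Fin k)) true (1 / 2) with hvd
  have hae : ∀ᵐ p : ℝ × (Fin k ⊕ Fin k → ℝ) ∂(volume.prod volume), ∀ i j, i ≠ j → p.2 i ≠ p.2 j :=
    Measure.quasiMeasurePreserving_snd.ae ae_dist
  have e2 : ∀ y : Fin k ⊕ Fin k → ℝ, LR y v (1 / 2) = fun i => (y i : ℂ) := fun y => by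
    funext i
    rw [LR_apply, sub_self, mul_zero, sub_zero]
  set V : Set (ℝ × (Fin k ⊕ Fin k → ℝ)) := {p | (p.1, p.2, (1 / 2 : ℂ)) ∈ Dm v (1 / 8)} with hV
  have hVo : IsOpen V := (Dm_open v (1 / 8)).preimage (by fun_prop)
  have hVa : ∀ᵐ p : ℝ × (Fin k ⊕ Fin k → ℝ) ∂(volume.prod volume), p ∈ V := by
    filter_upwards [hae] with p hp
    exact mem_Dm hv (by norm_num) (nSS_half hp)
  rw [← Measure.restrict_eq_self_of_ae_mem hVa]
  refine ContinuousOn.aestronglyMeasurable ?_ hVo.measurableSet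
  have h0 : Continuous fun p : ℝ × (Fin k ⊕ Fin k → ℝ) => p.1 / T := by fun_prop
  unfold dt
  refine (hw.cont.comp h0).continuousOn.mul (Zg_cont.continuousOn.sub (continuousOn_const.mul ?_))
  have h2 : Continuous fun p : ℝ × (Fin k ⊕ Fin k → ℝ) => (p.1, p.2, (1 / 2 : ℂ)) := by fun_prop
  have h3 := (Qs_jcont v (c := 1 / 8) (by norm_num)).comp (f := fun p : ℝ × (Fin k ⊕ Fin k → ℝ) =>
      (p.1, p.2, (1 / 2 : ℂ))) h2.continuousOn (s := V) fun p hp => hp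
  refine h3.congr fun p _ => ?_
  simp only [Function.comp, e2]

lemma DT_meas (hw : WT c1 c2 w) (hc1 : 0 < c1) {T : ℝ} (hT : 0 < T) :
    AEStronglyMeasurable (DT w T : (Fin k ⊕ Fin k → ℝ) → ℂ) volume := by
  have h1 : AEStronglyMeasurable (fun p : ℝ × (Fin k ⊕ Fin k → ℝ) => dt w T p.1 p.2)
      ((volume.restrict (Ioc (c1 * T) (c2 * T))).prod volume) := by
    have h2 : (volume.restrict (Ioc (c1 * T) (c2 * T))).prod (volume : Measure (Fin k ⊕ Fin k → ℝ)) =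
        ((volume : Measure ℝ).prod (volume : Measure (Fin k ⊕ Fin k → ℝ))).restrict
          (Ioc (c1 * T) (c2 * T) ×ˢ univ) := by
      rw [← Measure.prod_restrict, Measure.restrict_univ]
    rw [h2]
    exact (dt_meas hw T).restrict
  have h3 := h1.prod_swap.integral_prod_right'
  refine h3.congr (Eventually.of_forall fun y => ?_)
  simp only [Prod.swap]
  exact (DT_eq hw hc1 hT y).symm

lemma DT_bd (hw : WT c1 c2 w) (hc1 : 0 < c1) (hc12 : c1 ≤ c2) {T : ℝ} (hT : 0 < T) :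
    ∃ (C : ℝ) (N : ℕ), 0 ≤ C ∧ ∀ᵐ y : Fin k ⊕ Fin k → ℝ, ‖DT w T y‖ ≤ C * YY y ^ N := by
  have hv := dv_VV (∅ : Finset (Fin k ⊕ Fin k)) true (ε := 1 / 2) (by norm_num) le_rfl
  set v := dv (∅ : Finset (Fin k ⊕ Fin k)) true (1 / 2) with hvd
  obtain ⟨K, B, hK, hQ⟩ := Q_bddv hv (r := 1 / 8) (by norm_num) (by norm_num)
  obtain ⟨CZ, M, hCZ, hZ⟩ := Zg_bd (k := k)
  obtain ⟨Cw, hCw, hbw⟩ := hw.bdd
  have hle : c1 * T ≤ c2 * T := by gcongr
  have hca : 0 ≤ c1 * T := by positivity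
  have hcb : 0 ≤ c2 * T := hca.trans hle
  have hK0 : 0 ≤ K := by linarith
  set c : ℝ := ‖((Nat.factorial k : ℂ) ^ 2)⁻¹‖ with hc
  have hc0 : 0 ≤ c := norm_nonneg _
  refine ⟨Cw * (CZ * (1 + c2 * T) ^ M + c * (K * (1 + c2 * T) ^ k)) * (c2 * T - c1 * T), M + B, by
    have : 0 ≤ c2 * T - c1 * T := by linarith
    positivity, ?_⟩
  filter_upwards [ae_gen hv, ae_dist] with y hG hd
  have hY := YY_one y
  have hS := nSS_half (v := v) hd
  have e2 : LR y v (1 / 2) = fun i => (y i : ℂ) := by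
    funext i
    rw [LR_apply, sub_self, mul_zero, sub_zero]
  have hpt : ∀ t ∈ Ioc (c1 * T) (c2 * T), ‖dt w T t y‖ ≤
      Cw * (CZ * (1 + c2 * T) ^ M + c * (K * (1 + c2 * T) ^ k)) * YY y ^ (M + B) := by
    intro t ht
    have ht0 : 0 ≤ t := hca.trans ht.1.le
    have g1 := hZ y t ht0
    have g2 := hQ y t (1 / 2) hG ht0 (by norm_num) hS
    rw [e2] at g2
    have hre : (1 / 2 : ℂ).im = 0 := by norm_num
    rw [hre, abs_zero, add_zero, mul_one] at g2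
    have hn := ny_one y
    have g3 : ny y ^ B ≤ YY y ^ B := by
      have := ny_le_YY y
      gcongr
    have q1 : YY y ^ M ≤ YY y ^ (M + B) := pow_le_pow_right₀ hY (by omega)
    have q2 : YY y ^ B ≤ YY y ^ (M + B) := pow_le_pow_right₀ hY (by omega)
    have h1 : ‖Zg y t‖ ≤ CZ * (1 + c2 * T) ^ M * YY y ^ (M + B) := by
      refine g1.trans ?_
      have := ht.2
      gcongr
    have h2 : ‖Qs t (fun i => (y i : ℂ))‖ ≤ K * (1 + c2 * T) ^ k * YY y ^ (M + B) := by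
      refine g2.trans ?_
      calc K * ny y ^ B * (1 + t) ^ k ≤ K * YY y ^ (M + B) * (1 + c2 * T) ^ k := by
            have := g3.trans q2
            have := ht.2
            gcongr
        _ = _ := by ring
    unfold dt
    rw [norm_mul]
    have h3 := norm_sub_le (Zg y t) (((Nat.factorial k : ℂ) ^ 2)⁻¹ * Qs t (fun i => (y i : ℂ)))
    rw [norm_mul, ← hc] at h3
    have h4 : ‖Zg y t - ((Nat.factorial k : ℂ) ^ 2)⁻¹ * Qs t (fun i => (y i : ℂ))‖ ≤
        (CZ * (1 + c2 * T) ^ M + c * (K * (1 + c2 * T) ^ k)) * YY y ^ (M + B) := by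
      refine h3.trans ?_
      have h5 : c * ‖Qs t (fun i => (y i : ℂ))‖ ≤ c * (K * (1 + c2 * T) ^ k * YY y ^ (M + B)) := by
        gcongr
      nlinarith
    have h6 := hbw (t / T)
    calc _ ≤ Cw * ((CZ * (1 + c2 * T) ^ M + c * (K * (1 + c2 * T) ^ k)) * YY y ^ (M + B)) := by gcongr
      _ = _ := by ring
  rw [DT_eq hw hc1 hT, ← intervalIntegral.integral_of_le hle]
  have h7 := intervalIntegral.norm_integral_le_of_norm_le_const (a := c1 * T) (b := c2 * T)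
    (f := fun t => dt w T t y) (C := Cw * (CZ * (1 + c2 * T) ^ M + c * (K * (1 + c2 * T) ^ k)) *
      YY y ^ (M + B)) (fun t ht => by
      rw [uIoc_of_le hle] at ht
      exact hpt t ht)
  refine h7.trans (le_of_eq ?_)
  rw [abs_of_nonneg (by linarith)]
  ring

end

end Pool.Agent.TH612.MU
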