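import Pool.Agent.TH612.MU.U8

set_option autoImplicit false

/-! General test functions: reduction to the modulated families. -/

namespace Pool.Agent.TH612.MU

open Complex Filter Topology MeasureTheory Set
open scoped ContDiff ComplexConjugate
open Pool.Agent.W182.KO hiding ee SS_summable
open Pool.Agent.TH612.CF Pool.Agent.TH612.MD

noncomputable section

section

variable {ι : Type*} [Fintype ι]

/-- the transform of a function of several variables -/
def hatN (Φ : (ι → ℝ) → ℂ) (x : ι → ℝ) : ℂ := ∫ ξ : ι → ℝ, Φ ξ * exp (I * (∑ i, ξ i * x i : ℝ))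

/-- rapid decay -/
def RD (F : (ι → ℝ) → ℂ) : Prop := ∀ N : ℕ, ∃ C : ℝ, 0 ≤ C ∧ ∀ η, ‖F η‖ * (1 + sz η) ^ N ≤ C

lemma JI_sz (η : ι → ℝ) : 1 ≤ (1 + sz η) ^ (2 * Fintype.card ι) * JI η := by
  have h1 : (JI η)⁻¹ ≤ (1 + sz η) ^ (2 * Fintype.card ι) := by
    unfold JI
    rw [Finset.prod_inv_distrib, inv_inv, mul_comm 2, pow_mul', ← Finset.card_univ, ← Finset.prod_const]
    refine Finset.prod_le_prod (fun i _ => by positivity) fun i _ => ?_
    have := le_sz η i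
    rw [abs_of_nonneg (sz_nonneg η)] at this
    have h0 := abs_nonneg (η i)
    gcongr
  have hJ := JI_pos η
  calc (1:ℝ) = (JI η)⁻¹ * JI η := by field_simp
    _ ≤ _ := by gcongr

lemma RD.toJI {F : (ι → ℝ) → ℂ} (h : RD F) (N : ℕ) : ∃ C : ℝ, 0 ≤ C ∧ ∀ η, ‖F η‖ * (1 + sz η) ^ N ≤ C * JI η := by
  obtain ⟨C, hC, hb⟩ := h (N + 2 * Fintype.card ι)
  refine ⟨C, hC, fun η => ?_⟩
  have h1 := hb η
  have h2 := JI_sz η
  have h3 := sz_nonneg η
  have hJ := (JI_pos η).le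
  rw [pow_add, ← mul_assoc] at h1
  calc ‖F η‖ * (1 + sz η) ^ N = ‖F η‖ * (1 + sz η) ^ N * 1 := (mul_one _).symm
    _ ≤ ‖F η‖ * (1 + sz η) ^ N * ((1 + sz η) ^ (2 * Fintype.card ι) * JI η) := by gcongr
    _ = (‖F η‖ * (1 + sz η) ^ N * (1 + sz η) ^ (2 * Fintype.card ι)) * JI η := by ring
    _ ≤ _ := by gcongr

lemma RD.int {F : (ι → ℝ) → ℂ} (h : RD F) (hc : Continuous F) : Integrable F := by
  obtain ⟨C, hC, hb⟩ := h.toJI 0
  refine (JI_int.const_mul C).mono' hc.aestronglyMeasurable (Eventually.of_forall fun η => ?_)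
  have := hb η
  rwa [pow_zero, mul_one] at this

/-- representation of the transform -/
theorem hatN_eq {Φ : (ι → ℝ) → ℂ} {χ : ι → ℝ → ℂ} (hχ : ∀ i, Continuous (χ i))
    (hχc : ∀ i, HasCompactSupport (χ i)) (hΦ : ∀ ξ, Φ ξ = Φ ξ * ∏ i, χ i (ξ i))
    {F : (ι → ℝ) → ℂ} (hF : Continuous F) (hRD : RD F)
    (hinv : ∀ x, Φ x = ∫ η, F η * exp (2 * Real.pi * (∑ i, η i * x i : ℝ) * I)) (x : ι → ℝ) :
    hatN Φ x = ∫ η, F η * ∏ i, P (χ i) (I * ((x i + 2 * Real.pi * η i : ℝ) : ℂ)) := by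
  set K : (ι → ℝ) → (ι → ℝ) → ℂ := fun ξ η =>
    F η * ∏ i, (χ i (ξ i) * exp (ξ i * (I * ((x i + 2 * Real.pi * η i : ℝ) : ℂ)))) with hK
  have e1 : hatN Φ x = ∫ ξ, ∫ η, K ξ η := by
    unfold hatN
    congr 1; funext ξ
    rw [hΦ ξ, hinv ξ, ← integral_mul_const, ← integral_mul_const]
    congr 1; funext η
    rw [hK]
    simp only
    rw [Finset.prod_mul_distrib, ← Complex.exp_sum]
    have e2 : ∑ i, ((ξ i : ℂ) * (I * ((x i + 2 * Real.pi * η i : ℝ) : ℂ))) =
        2 * Real.pi * ((∑ i, η i * ξ i : ℝ) : ℂ) * I + I * ((∑ i, ξ i * x i : ℝ) : ℂ) := by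
      push_cast
      rw [Finset.mul_sum, Finset.mul_sum, Finset.sum_mul, ← Finset.sum_add_distrib]
      refine Finset.sum_congr rfl fun i _ => ?_
      ring
    rw [e2, Complex.exp_add]
    ring
  have hint : Integrable (Function.uncurry K) (volume.prod volume) := by
    have i1 : Integrable (fun ξ : ι → ℝ => ∏ i, χ i (ξ i)) :=
      Integrable.fintype_prod (f := fun i x => χ i x)
        fun i => (hχ i).integrable_of_hasCompactSupport (hχc i)
    have i2 := i1.mul_prod (hRD.int hF)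
    refine i2.norm.mono' ?_ (Eventually.of_forall fun p => ?_)
    · refine Continuous.aestronglyMeasurable ?_
      rw [hK]
      unfold Function.uncurry
      simp only
      refine (hF.comp continuous_snd).mul (continuous_finsetProd _ fun i _ => ?_)
      have h1 : Continuous fun p : (ι → ℝ) × (ι → ℝ) => p.1 i := (continuous_apply i).comp continuous_fst
      have h2 : Continuous fun p : (ι → ℝ) × (ι → ℝ) => p.2 i := (continuous_apply i).comp continuous_snd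
      refine ((hχ i).comp h1).mul ?_
      fun_prop
    · rw [hK]
      unfold Function.uncurry
      simp only
      rw [norm_mul, norm_mul, norm_prod, norm_prod, mul_comm]
      refine le_of_eq ?_
      congr 1
      refine Finset.prod_congr rfl fun i _ => ?_
      have : ((p.1 i : ℂ) * (I * ((x i + 2 * Real.pi * p.2 i : ℝ) : ℂ))) =
          ((p.1 i * (x i + 2 * Real.pi * p.2 i) : ℝ) : ℂ) * I := by push_cast; ring
      rw [norm_mul, this, Complex.norm_exp_ofReal_mul_I, mul_one]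
  rw [e1, integral_integral_swap hint]
  congr 1; funext η
  rw [hK]
  simp only
  rw [integral_const_mul, integral_fintype_prod_volume_eq_prod
    (f := fun i (t : ℝ) => χ i t * exp (t * (I * ((x i + 2 * Real.pi * η i : ℝ) : ℂ))))]
  rfl

end

variable {k : ℕ} {c1 c2 : ℝ} {w : ℝ → ℂ}

/-- modulated cutoffs -/
def md (χ : Fin k ⊕ Fin k → ℝ → ℂ) (a : Fin k ⊕ Fin k → ℝ) (i : Fin k ⊕ Fin k) (x : ℝ) : ℂ :=
  χ i x * exp (I * a i * x)

/-- the modulation attached to a frequency and a centre -/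
def am (g : Fin k ⊕ Fin k → ℝ) (L : ℝ) (η : Fin k ⊕ Fin k → ℝ) (i : Fin k ⊕ Fin k) : ℝ :=
  2 * Real.pi * η i - g i * L

lemma md_P (χ : Fin k ⊕ Fin k → ℝ → ℂ) (g : Fin k ⊕ Fin k → ℝ) (L : ℝ) (η y : Fin k ⊕ Fin k → ℝ)
    (i : Fin k ⊕ Fin k) : P (md χ (am g L η) i) (L * y i * I) =
      P (χ i) (I * (((y i - g i) * L + 2 * Real.pi * η i : ℝ) : ℂ)) := by
  unfold md
  rw [P_mod]
  congr 1
  unfold am
  push_cast; ring

lemma sz_am (g : Fin k ⊕ Fin k → ℝ) {L : ℝ} (hL : 1 ≤ L) (η : Fin k ⊕ Fin k → ℝ) :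
    1 + |sz (am g L η)| ≤ (1 + 2 * Real.pi + sz g) * L * (1 + sz η) := by
  rw [abs_of_nonneg (sz_nonneg _)]
  have h1 : sz (am g L η) ≤ 2 * Real.pi * sz η + sz g * L := by
    unfold sz am
    rw [Finset.mul_sum, Finset.sum_mul, ← Finset.sum_add_distrib]
    refine Finset.sum_le_sum fun i _ => ?_
    have h2 : |2 * Real.pi * η i - g i * L| ≤ |2 * Real.pi * η i| + |g i * L| := abs_sub _ _
    rw [abs_mul (2 * Real.pi) (η i), abs_mul (g i) L, abs_of_pos (by positivity : 0 < 2 * Real.pi),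
      abs_of_pos (by linarith : 0 < L)] at h2
    exact h2
  have h3 := sz_nonneg η
  have h4 := sz_nonneg g
  have h5 := Real.pi_pos
  have h6 : 0 ≤ 2 * Real.pi * sz η * (L - 1) := by
    have : 0 ≤ L - 1 := by linarith
    positivity
  have h7 : 0 ≤ sz g * L * sz η := by positivity
  have h8 : 0 ≤ L * sz η := by positivity
  have h9 : 0 ≤ 2 * Real.pi * L := by positivity
  nlinarith

/-- the outer integrand for a general test function and centre -/
def WF (w : ℝ → ℂ) (Φ : (Fin k ⊕ Fin k → ℝ) → ℂ) (g : Fin k ⊕ Fin k → ℝ) (T : ℝ) (y : Fin k ⊕ Fin k → ℝ) : ℂ :=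
  hatN Φ (fun i => (y i - g i) * Real.log T) * DT w T y

theorem WF_eq {Φ : (Fin k ⊕ Fin k → ℝ) → ℂ} {χ : Fin k ⊕ Fin k → ℝ → ℂ} (hχ : ∀ i, Continuous (χ i))
    (hχc : ∀ i, HasCompactSupport (χ i)) (hΦ : ∀ ξ, Φ ξ = Φ ξ * ∏ i, χ i (ξ i))
    {F : (Fin k ⊕ Fin k → ℝ) → ℂ} (hF : Continuous F) (hRD : RD F)
    (hinv : ∀ x, Φ x = ∫ η, F η * exp (2 * Real.pi * (∑ i, η i * x i : ℝ) * I))
    (g : Fin k ⊕ Fin k → ℝ) (T : ℝ) (y : Fin k ⊕ Fin k → ℝ) :
    WF w Φ g T y = ∫ η, F η * WW w (md χ (am g (Real.log T) η)) T y := by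
  unfold WF
  rw [hatN_eq hχ hχc hΦ hF hRD hinv, ← integral_mul_const]
  congr 1; funext η
  rw [WW_DT]
  simp only [md_P]
  ring

end

end Pool.Agent.TH612.MU
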